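import Mathlib

set_option autoImplicit false

/-!
# The graph `H` with 71 vertices, colorings by whites and a gray graph, templates
-/

namespace Pool.Agent.CrgTail

/-- sizes of the seven parts: 4, 5, 5, 8, 7, 6, 5 -/
def sz (i : Fin 7) : ℕ := if i.1 = 0 then 4 else if i.1 < 3 then 5 else 11 - i.1

/-- vertices of the graph `H`: seven parts, the gadgets `D₂` and `D₃`, and three more vertices -/
inductive Vtx
  | part (i : Fin 7) (a : Fin (sz i))
  | d2 (i : Fin 5) (c : Fin 2)
  | d3 (i : Fin 6) (c : Fin 3)
  | u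
  | z
  | y
  deriving DecidableEq, Fintype

/-- adjacency of `u` to the vertex number `a` of part `i` -/
def nu (i : Fin 7) (a : ℕ) : Bool := decide (i.1 < 3) || decide (a < 7 - i.1) || decide (14 ≤ a + 2 * i.1)

/-- adjacency of `y` to the vertex number `a` of part `i` -/
def ny (i : Fin 7) (a : ℕ) : Bool :=
  (decide (i.1 = 1) && decide (a < 2)) || decide (i.1 = 2) || (decide (3 ≤ i.1) && decide (7 ≤ a + i.1))

/-- adjacency of `z` to the vertex number `a` of part `i` -/
def nz (i : Fin 7) (a : ℕ) : Bool :=
  decide (i.1 = 1) || (decide (i.1 = 2) && decide (a < 2)) || decide (3 ≤ i.1)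

/-- adjacency of `H` -/
def adjB : Vtx → Vtx → Bool
  | .part i _, .part j _ => decide (i ≠ j)
  | .part i a, .u => nu i a
  | .part i a, .z => nz i a
  | .part i a, .y => ny i a
  | .u, .part i a => nu i a
  | .z, .part i a => nz i a
  | .y, .part i a => ny i a
  | .d2 i c, .d2 j c' => decide (c ≠ c') && (decide (i = j) || decide (i.1 < 2) || decide (j.1 < 2))
  | .d3 i c, .d3 j c' => decide (c ≠ c') && (decide (i = j) || decide (i.1 < 3) || decide (j.1 < 3))
  | .u, .z => true
  | .z, .u => true
  | .z, .y => true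
  | .y, .z => true
  | .u, .u => false
  | .z, .z => false
  | .y, .y => false
  | .u, .y => false
  | .y, .u => false
  | _, _ => true

theorem adjB_symm : ∀ a b, adjB a b = adjB b a := by decide +kernel

theorem adjB_self : ∀ a, adjB a a = false := by decide +kernel

/-- the graph `H` -/
def H : SimpleGraph Vtx where
  Adj a b := adjB a b = true
  symm := ⟨fun a b h => by rw [adjB_symm]; exact h⟩
  loopless := ⟨fun a h => by rw [adjB_self] at h; exact absurd h (by decide)⟩

/-- compatibility of two vertices at positions in `r` whites and a gray graph `G` of blacks -/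
def Ok {r : ℕ} {B : Type} (G : SimpleGraph B) : Bool → Fin r ⊕ B → Fin r ⊕ B → Prop
  | true, .inl i, .inl j => i ≠ j
  | true, .inr x, .inr y => x = y ∨ G.Adj x y
  | false, .inr x, .inr y => x ≠ y
  | _, _, _ => True

/-- `H` maps to `r` white vertices joined by gray edges to each other and to the black vertices `B`
with gray graph `G` (the other edges between black vertices being white) -/
def Hosts (r : ℕ) {B : Type} (G : SimpleGraph B) : Prop :=
  ∃ φ : Vtx → Fin r ⊕ B, ∀ a b : Vtx, a ≠ b → Ok G (adjB a b) (φ a) (φ b)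

theorem Hosts.mono {r r' : ℕ} {B B' : Type} {G : SimpleGraph B} {G' : SimpleGraph B'}
    (h : Hosts r G) (hr : r ≤ r') (f : B → B') (hf : Function.Injective f)
    (hG : ∀ x y, G.Adj x y → G'.Adj (f x) (f y)) : Hosts r' G' := by
  obtain ⟨φ, hφ⟩ := h
  refine ⟨fun v => Sum.map (Fin.castLE hr) f (φ v), fun a b hab => ?_⟩
  have := hφ a b hab
  cases hadj : adjB a b <;> rw [hadj] at this <;> cases ha : φ a <;> cases hb : φ b <;>
    simp only [ha, hb, Ok, Sum.map_inl, Sum.map_inr] at this ⊢
  · exact fun e => this (hf e)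
  · exact fun e => this (Fin.castLE_injective hr e)
  · rcases this with e | e
    · exact Or.inl (congrArg f e)
    · exact Or.inr (hG _ _ e)

/-- the graph `K₃` with an infinite path attached: `i ~ i + 1` and `0 ~ 2` -/
def Tail : SimpleGraph ℕ where
  Adj i j := i + 1 = j ∨ j + 1 = i ∨ (i = 0 ∧ j = 2) ∨ (i = 2 ∧ j = 0)
  symm := ⟨fun i j h => by rcases h with h | h | h | h <;> omega⟩
  loopless := ⟨fun i h => by rcases h with h | h | h | h <;> omega⟩

/-- the join of a clique with `k` vertices and three isolated vertices -/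
def Tm (k : ℕ) : SimpleGraph (Fin (k + 3)) where
  Adj i j := i ≠ j ∧ (i.1 < k ∨ j.1 < k)
  symm := ⟨fun i j h => ⟨h.1.symm, h.2.symm⟩⟩
  loopless := ⟨fun i h => h.1 rfl⟩

end Pool.Agent.CrgTail
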