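import Pool.Agent.CrgTail.Defs

set_option autoImplicit false

namespace Pool.Agent.CrgTail

instance okDec {r : ℕ} {B : Type} [DecidableEq B] (G : SimpleGraph B) [DecidableRel G.Adj] (b : Bool)
    (p q : Fin r ⊕ B) : Decidable (Ok G b p q) :=
  match b, p, q with
  | true, .inl i, .inl j => inferInstanceAs (Decidable (i ≠ j))
  | true, .inr x, .inr y => inferInstanceAs (Decidable (x = y ∨ G.Adj x y))
  | false, .inr x, .inr y => inferInstanceAs (Decidable (x ≠ y))
  | true, .inl _, .inr _ => isTrue trivial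
  | true, .inr _, .inl _ => isTrue trivial
  | false, .inl _, .inr _ => isTrue trivial
  | false, .inr _, .inl _ => isTrue trivial
  | false, .inl _, .inl _ => isTrue trivial

instance (k : ℕ) : DecidableRel (Tm k).Adj := fun i j =>
  inferInstanceAs (Decidable (i ≠ j ∧ (i.1 < k ∨ j.1 < k)))

/-- complete graph -/
def Kc (n : ℕ) : SimpleGraph (Fin n) where
  Adj i j := i ≠ j
  symm := ⟨fun _ _ h => h.symm⟩
  loopless := ⟨fun _ h => h rfl⟩

instance (n : ℕ) : DecidableRel (Kc n).Adj := fun i j => inferInstanceAs (Decidable (i ≠ j))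

def fn (n : ℕ) [NeZero n] (a : ℕ) : Fin n := Fin.ofNat n a

/-- 12 whites and one black vertex -/
theorem host_12_1 : Hosts 12 (Kc 1) :=
  ⟨fun v => match v with
    | .part i _ => .inl (fn 12 i)
    | .d2 _ c => .inl (fn 12 (7 + c))
    | .d3 _ c => .inl (fn 12 (9 + c))
    | .u => .inr 0
    | .z => .inr 0
    | .y => .inl 0, by decide +kernel⟩

/-- 13 whites -/
theorem host_13 : Hosts 13 (Kc 0) :=
  ⟨fun v => match v with
    | .part i _ => .inl (fn 13 i)
    | .d2 _ c => .inl (fn 13 (7 + c))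
    | .d3 _ c => .inl (fn 13 (9 + c))
    | .u => .inl 12
    | .y => .inl 12
    | .z => .inl 0, by decide +kernel⟩

theorem host_T2 : Hosts 10 (Tm 2) :=
  ⟨fun v => match v with
    | .part i _ => .inl (fn 10 i)
    | .d2 i _ => .inr i
    | .d3 _ c => .inl (fn 10 (7 + c))
    | .u => .inr 0
    | .z => .inr 0
    | .y => .inl 0, by decide +kernel⟩

theorem host_T3 : Hosts 9 (Tm 3) :=
  ⟨fun v => match v with
    | .part i _ => .inl (fn 9 i)
    | .d2 _ c => .inl (fn 9 (7 + c))
    | .d3 i _ => .inr i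
    | .u => .inr 0
    | .z => .inr 0
    | .y => .inl 0, by decide +kernel⟩

theorem host_K5 : Hosts 8 (Kc 5) :=
  ⟨fun v => match v with
    | .part i a => if i.1 = 0 then .inl 0 else if i.1 < 3 then .inr (fn 5 a) else .inl (fn 8 (i - 2))
    | .d2 i _ => .inr i
    | .d3 _ c => .inl (fn 8 (5 + c))
    | .u => .inr 0
    | .z => .inr 0
    | .y => .inl 0, by decide +kernel⟩

theorem host_K6 : Hosts 7 (Kc 6) :=
  ⟨fun v => match v with
    | .part i _ => .inl (fn 7 i)
    | .d2 i _ => .inr (fn 6 i)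
    | .d3 i _ => .inr i
    | .u => .inr 0
    | .z => .inr 0
    | .y => .inl 0, by decide +kernel⟩

theorem host_K7 : Hosts 6 (Kc 7) :=
  ⟨fun v => match v with
    | .part i a => if i.1 = 0 then .inl 0 else if i.1 = 1 then .inr (fn 7 a) else .inl (fn 6 (i - 1))
    | .d2 i _ => .inr (fn 7 i)
    | .d3 i _ => .inr (fn 7 i)
    | .u => .inr 0
    | .z => .inr 0
    | .y => .inl 0, by decide +kernel⟩

theorem host_K8 : Hosts 0 (Kc 8) :=
  ⟨fun v => match v with
    | .part i a => if i.1 < 3 then .inr (fn 8 (3 + a)) else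
        .inr (if a.1 = 0 then 0 else if a.1 = 7 - i.1 then 1 else if a.1 < 7 - i.1 then fn 8 (a + 1)
          else fn 8 a)
    | .d2 i _ => .inr (fn 8 i)
    | .d3 i _ => .inr (fn 8 i)
    | .u => .inr 0
    | .z => .inr 2
    | .y => .inr 1, by decide +kernel⟩

theorem kc_tm {r r' m k : ℕ} (h : Hosts r (Kc m)) (hr : r ≤ r') (hm : m ≤ k + 1) : Hosts r' (Tm k) := by
  refine h.mono hr (Fin.castLE (by omega)) (Fin.castLE_injective _) fun x y hxy => ?_
  have hne : x ≠ y := hxy
  have hne' : x.1 ≠ y.1 := fun e => hne (Fin.ext e)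
  refine ⟨fun e => hne (Fin.castLE_injective _ e), ?_⟩
  have hx := x.2
  have hy := y.2
  simp only [Fin.val_castLE]
  omega

/-- `12 - k` whites and the template `K_k` joined with three isolated black vertices -/
theorem host_T {k : ℕ} (hk : 2 ≤ k) (hk' : k ≤ 12) : Hosts (12 - k) (Tm k) := by
  rcases Nat.lt_or_ge k 7 with h | h
  · interval_cases k
    · exact host_T2
    · exact host_T3
    · exact kc_tm host_K5 le_rfl le_rfl
    · exact kc_tm host_K6 le_rfl le_rfl
    · exact kc_tm host_K7 le_rfl le_rfl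
  · exact kc_tm host_K8 (Nat.zero_le _) (by omega)

end Pool.Agent.CrgTail
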