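import Pool.Agent.CrgTail.HostFin

set_option autoImplicit false

namespace Pool.Agent.CrgTail

/-- boolean compatibility with relations `E` (equal or adjacent) and `N` (different) -/
def Ok2 {r : ℕ} {X : Type} (E N : X → X → Bool) : Bool → Fin r ⊕ X → Fin r ⊕ X → Bool
  | true, .inl i, .inl j => decide (i ≠ j)
  | true, .inr x, .inr y => E x y
  | false, .inr x, .inr y => N x y
  | _, _, _ => true

theorem hosts_of2 {r : ℕ} {X B : Type} {G : SimpleGraph B} {E N : X → X → Bool}
    (φ : Vtx → Fin r ⊕ X) (h : ∀ a b : Vtx, a ≠ b → Ok2 E N (adjB a b) (φ a) (φ b) = true)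
    (f : X → B) (hE : ∀ x y, E x y = true → f x = f y ∨ G.Adj (f x) (f y))
    (hN : ∀ x y, N x y = true → f x ≠ f y) : Hosts r G := by
  refine ⟨fun v => Sum.map id f (φ v), fun a b hab => ?_⟩
  have := h a b hab
  cases hadj : adjB a b <;> rw [hadj] at this <;> cases ha : φ a <;> cases hb : φ b <;>
    simp only [ha, hb, Ok2, Ok, Sum.map_inl, Sum.map_inr, id] at this ⊢
  · exact hN _ _ this
  · exact of_decide_eq_true this
  · exact hE _ _ this

/-- a star with four leaves -/
def starE (x y : Fin 5) : Bool := decide (x = y) || decide (x = 0) || decide (y = 0)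

theorem host_deg4 {B : Type} {G : SimpleGraph B} (c : B) (s : Fin 4 → B)
    (hs : Function.Injective s) (hc : ∀ i, G.Adj c (s i)) : Hosts 11 G := by
  refine hosts_of2 (X := Fin 5) (E := starE) (N := fun x y => decide (x ≠ y))
    (fun v => match v with
      | .part i a => if i.1 = 0 then .inl 0 else if i.1 = 1 then .inr (fn 5 a) else
          .inl (fn 11 (i - 1))
      | .d2 _ k => .inl (fn 11 (6 + k))
      | .d3 _ k => .inl (fn 11 (8 + k))
      | .u => .inr 0
      | .z => .inr 0
      | .y => .inl 0) (by decide +kernel) (Fin.cases c s) ?_ ?_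
  · intro x y hxy
    simp only [starE, Bool.or_eq_true, decide_eq_true_eq] at hxy
    rcases hxy with (rfl | rfl) | rfl
    · exact Or.inl rfl
    · refine Fin.cases (Or.inl rfl) (fun j => Or.inr ?_) y
      simpa using hc j
    · refine Fin.cases (Or.inl rfl) (fun j => Or.inr ?_) x
      simpa using (hc j).symm
  · intro x y hxy
    have hne : x ≠ y := of_decide_eq_true hxy
    revert hne
    refine Fin.cases ?_ (fun i => ?_) x <;> refine Fin.cases ?_ (fun j => ?_) y
    · intro h; exact absurd rfl h
    · intro _; simpa using (hc j).ne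
    · intro _; simpa using (hc i).ne'
    · intro h; simpa using fun e => h (by rw [hs e])

/-- relations for the part number `i0 ≥ 3` spread over two closed neighbourhoods -/
def twoE (i0 : Fin 7) : Fin (sz i0) ⊕ Bool → Fin (sz i0) ⊕ Bool → Bool
  | .inl k, .inr false => nu i0 k
  | .inl k, .inr true => ny i0 k
  | .inr false, .inl k => nu i0 k
  | .inr true, .inl k => ny i0 k
  | _, _ => false

def twoN (i0 : Fin 7) : Fin (sz i0) ⊕ Bool → Fin (sz i0) ⊕ Bool → Bool
  | .inl k, .inl l => decide (k ≠ l)
  | .inl k, .inr false => !nu i0 k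
  | .inl k, .inr true => !ny i0 k
  | .inr false, .inl k => !nu i0 k
  | .inr true, .inl k => !ny i0 k
  | .inr x, .inr y => decide (x ≠ y)

def twoφ (i0 : Fin 7) (v : Vtx) : Fin 11 ⊕ (Fin (sz i0) ⊕ Bool) :=
  match v with
  | .part i a => if h : i = i0 then .inr (.inl (Fin.cast (by rw [h]) a)) else
      if i.1 < i0.1 then .inl (fn 11 i) else .inl (fn 11 (i - 1))
  | .d2 _ k => .inl (fn 11 (6 + k))
  | .d3 _ k => .inl (fn 11 (8 + k))
  | .u => .inr (.inr false)
  | .z => .inl 0
  | .y => .inr (.inr true)

theorem twoφ_ok : ∀ i0 : Fin 7, 3 ≤ i0.1 → ∀ a b : Vtx, a ≠ b →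
    Ok2 (twoE i0) (twoN i0) (adjB a b) (twoφ i0 a) (twoφ i0 b) = true := by decide +kernel

/-- relations for part `0` on a common closed neighbourhood -/
def fourE : Fin 4 ⊕ Bool → Fin 4 ⊕ Bool → Bool
  | .inl _, .inl _ => false
  | _, _ => true

def fourN : Fin 4 ⊕ Bool → Fin 4 ⊕ Bool → Bool
  | .inl k, .inl l => decide (k ≠ l)
  | .inr x, .inr y => decide (x ≠ y)
  | _, _ => false

def fourφ (v : Vtx) : Fin 11 ⊕ (Fin 4 ⊕ Bool) :=
  match v with
  | .part i a => if i.1 = 0 then .inr (.inl (fn 4 a)) else
      if i.1 < 3 ∧ a.1 = 0 then .inr (.inr false) else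
      if i.1 < 3 ∧ a.1 = 1 then .inr (.inr true) else .inl (fn 11 (i - 1))
  | .d2 _ k => .inl (fn 11 (6 + k))
  | .d3 _ k => .inl (fn 11 (8 + k))
  | .u => .inr (.inr false)
  | .z => .inl 1
  | .y => .inl 0

theorem fourφ_ok : ∀ a b : Vtx, a ≠ b →
    Ok2 fourE fourN (adjB a b) (fourφ a) (fourφ b) = true := by decide +kernel

theorem enum3 {B : Type} [DecidableEq B] (a : B) (X Y Z : Finset B) (hXY : Disjoint X Y)
    (hXZ : Disjoint X Z) (hYZ : Disjoint Y Z) :
    ∃ g : ℕ → B, (∀ k < X.card, g k ∈ X) ∧
      (∀ k, X.card ≤ k → k < X.card + Y.card → g k ∈ Y) ∧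
      (∀ k, X.card + Y.card ≤ k → k < X.card + Y.card + Z.card → g k ∈ Z) ∧
      ∀ k l, k < X.card + Y.card + Z.card → l < X.card + Y.card + Z.card → g k = g l → k = l := by
  set L := X.toList ++ Y.toList ++ Z.toList with hL
  have hlen : L.length = X.card + Y.card + Z.card := by simp [hL, add_assoc]
  have hnd : L.Nodup := by
    rw [hL, List.nodup_append, List.nodup_append]
    refine ⟨⟨X.nodup_toList, Y.nodup_toList, ?_⟩, Z.nodup_toList, ?_⟩
    · intro x hx y hy e
      subst e
      exact Finset.disjoint_left.1 hXY (Finset.mem_toList.1 hx) (Finset.mem_toList.1 hy)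
    · intro x hx y hy e
      subst e
      rcases List.mem_append.1 hx with h | h
      · exact Finset.disjoint_left.1 hXZ (Finset.mem_toList.1 h) (Finset.mem_toList.1 hy)
      · exact Finset.disjoint_left.1 hYZ (Finset.mem_toList.1 h) (Finset.mem_toList.1 hy)
  refine ⟨fun k => L.getD k a, ?_, ?_, ?_, ?_⟩
  · intro k hk
    have h1 : k < L.length := by omega
    simp only [List.getD_eq_getElem _ _ h1]
    rw [← Finset.mem_toList]
    simp only [hL, List.append_assoc]
    rw [List.getElem_append_left (by simpa using hk)]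
    exact List.getElem_mem _
  · intro k hk hk2
    have h1 : k < L.length := by omega
    simp only [List.getD_eq_getElem _ _ h1]
    rw [← Finset.mem_toList]
    simp only [hL]
    rw [List.getElem_append_left (by simpa using hk2), List.getElem_append_right (by simpa using hk)]
    exact List.getElem_mem _
  · intro k hk hk2
    have h1 : k < L.length := by omega
    simp only [List.getD_eq_getElem _ _ h1]
    rw [← Finset.mem_toList]
    simp only [hL]
    rw [List.getElem_append_right (by simpa using hk)]
    exact List.getElem_mem _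
  · intro k l hk hl he
    have h1 : k < L.length := by omega
    have h2 : l < L.length := by omega
    simp only [List.getD_eq_getElem _ _ h1, List.getD_eq_getElem _ _ h2] at he
    exact (List.Nodup.getElem_inj_iff hnd).1 he

theorem host_two {B : Type} [DecidableEq B] {G : SimpleGraph B} {a b : B} (hab : a ≠ b)
    {A C : Finset B} (hA : A.card = 4) (hC : C.card = 4) (haA : a ∈ A) (hbC : b ∈ C)
    (hA' : ∀ x ∈ A, x ≠ a → G.Adj a x) (hC' : ∀ x ∈ C, x ≠ b → G.Adj b x) : Hosts 11 G := by
  have hcapA : (A \ C).card + (A ∩ C).card = 4 := by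
    rw [Finset.card_sdiff_add_card_inter, hA]
  have hcapC : (C \ A).card + (A ∩ C).card = 4 := by
    rw [Finset.inter_comm, Finset.card_sdiff_add_card_inter, hC]
  have hEA : ∀ x ∈ A, x = a ∨ G.Adj x a := fun x hx => by
    by_cases h : x = a
    · exact Or.inl h
    · exact Or.inr (hA' x hx h).symm
  have hEC : ∀ x ∈ C, x = b ∨ G.Adj x b := fun x hx => by
    by_cases h : x = b
    · exact Or.inl h
    · exact Or.inr (hC' x hx h).symm
  obtain ⟨g, g1, g2, g3, ginj⟩ := enum3 a (A \ C) (C \ A) (A ∩ C)
    (Finset.disjoint_left.2 fun x hx hy => by simp_all)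
    (Finset.disjoint_left.2 fun x hx hy => by simp_all)
    (Finset.disjoint_left.2 fun x hx hy => by simp_all)
  rcases Nat.lt_or_ge (A ∩ C).card 4 with h | h
  · set γ := (A ∩ C).card with hγ
    set i0 : Fin 7 := ⟨3 + γ, by omega⟩ with hi0
    have hsz : sz i0 = 8 - γ := by
      simp only [sz, hi0]
      split_ifs <;> omega
    have hc1 : (A \ C).card = 4 - γ := by omega
    have hc2 : (C \ A).card = 4 - γ := by omega
    have hnu : ∀ k : Fin (sz i0), nu i0 k = true → g k ∈ A := by
      intro k hk
      have hk2 : k.1 < 8 - γ := by have := k.2; omega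
      simp only [nu, hi0, Bool.or_eq_true, decide_eq_true_eq] at hk
      by_cases h1 : k.1 < 4 - γ
      · exact (Finset.mem_sdiff.1 (g1 k (by omega))).1
      · exact (Finset.mem_inter.1 (g3 k (by omega) (by omega))).1
    have hnu' : ∀ k : Fin (sz i0), nu i0 k = false → g k ∉ A := by
      intro k hk
      have hk2 : k.1 < 8 - γ := by have := k.2; omega
      simp only [nu, hi0, Bool.or_eq_false_iff, decide_eq_false_iff_not] at hk
      exact (Finset.mem_sdiff.1 (g2 k (by omega) (by omega))).2
    have hny : ∀ k : Fin (sz i0), ny i0 k = true → g k ∈ C := by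
      intro k hk
      have hk2 : k.1 < 8 - γ := by have := k.2; omega
      simp only [ny, hi0, Bool.or_eq_true, Bool.and_eq_true, decide_eq_true_eq] at hk
      by_cases h1 : k.1 < 8 - 2 * γ
      · exact (Finset.mem_sdiff.1 (g2 k (by omega) (by omega))).1
      · exact (Finset.mem_inter.1 (g3 k (by omega) (by omega))).2
    have hny' : ∀ k : Fin (sz i0), ny i0 k = false → g k ∉ C := by
      intro k hk
      have hk2 : k.1 < 8 - γ := by have := k.2; omega
      simp only [ny, hi0, Bool.or_eq_false_iff, Bool.and_eq_false_iff, decide_eq_false_iff_not] at hk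
      exact (Finset.mem_sdiff.1 (g1 k (by omega))).2
    refine hosts_of2 (twoφ i0) (twoφ_ok i0 (by simp [hi0]))
      (fun x => match x with
        | .inl k => g k
        | .inr false => a
        | .inr true => b) ?_ ?_
    · rintro (k | _ | _) (l | _ | _) hxy <;> simp only [twoE] at hxy ⊢ <;>
        first
        | exact absurd hxy (by decide)
        | exact hEA _ (hnu _ hxy)
        | exact hEC _ (hny _ hxy)
        | exact (hEA _ (hnu _ hxy)).imp Eq.symm SimpleGraph.Adj.symm
        | exact (hEC _ (hny _ hxy)).imp Eq.symm SimpleGraph.Adj.symm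
    · rintro (k | _ | _) (l | _ | _) hxy <;>
        simp only [twoN, Bool.not_eq_true', decide_eq_true_eq] at hxy ⊢ <;>
        first
        | exact absurd rfl hxy
        | exact hab
        | exact hab.symm
        | (intro e; exact hxy (Fin.ext (ginj _ _ (by have := k.2; omega) (by have := l.2; omega) e)))
        | (intro e; exact hnu' _ hxy (e ▸ haA))
        | (intro e; exact hny' _ hxy (e ▸ hbC))
  · have hAC : A = C := by
      have h1 : A ∩ C = A := Finset.eq_of_subset_of_card_le Finset.inter_subset_left (by omega)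
      have h2 : A ∩ C = C := Finset.eq_of_subset_of_card_le Finset.inter_subset_right (by omega)
      rw [← h1, h2]
    have hg : ∀ k : Fin 4, g k ∈ A ∧ g k ∈ C := fun k =>
      Finset.mem_inter.1 (g3 k (by omega) (by have := k.2; omega))
    refine hosts_of2 fourφ fourφ_ok
      (fun x => match x with
        | .inl k => g k
        | .inr false => a
        | .inr true => b) ?_ ?_
    · rintro (k | _ | _) (l | _ | _) hxy <;> simp only [fourE] at hxy ⊢
      · exact absurd hxy (by decide)
      · exact hEA _ (hg k).1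
      · exact hEC _ (hg k).2
      · exact (hEA _ (hg l).1).imp Eq.symm SimpleGraph.Adj.symm
      · exact Or.inl trivial
      · exact hEC _ (hAC ▸ haA)
      · exact (hEC _ (hg l).2).imp Eq.symm SimpleGraph.Adj.symm
      · exact (hEC _ (hAC ▸ haA)).imp Eq.symm SimpleGraph.Adj.symm
      · exact Or.inl trivial
    · rintro (k | _ | _) (l | _ | _) hxy <;>
        simp only [fourN, decide_eq_true_eq] at hxy ⊢
      · intro e
        exact hxy (Fin.ext (ginj _ _ (by have := k.2; omega) (by have := l.2; omega) e))
      all_goals first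
        | exact absurd hxy (by decide)
        | exact absurd rfl hxy
        | exact hab
        | exact hab.symm

end Pool.Agent.CrgTail
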