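import Pool.Agent.CrgTail.Spec

set_option autoImplicit false

/-!
# Levels: `k * Q(x) ≤ (∑ x)²`, and passing to a neighbourhood
-/

namespace Pool.Agent.CrgTail

open Finset

section
open Classical

variable {B : Type} [Fintype B]

/-- the matrix `1 + √5 I - A` -/
noncomputable def Mx (G : SimpleGraph B) (i j : B) : ℝ :=
  (if G.Adj i j then 0 else 1) + (if i = j then √5 else 0)

noncomputable def bl (G : SimpleGraph B) (x y : B → ℝ) : ℝ := ∑ i, ∑ j, x i * Mx G i j * y j

noncomputable def rw' (G : SimpleGraph B) (x : B → ℝ) (i : B) : ℝ := ∑ j, Mx G i j * x j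

omit [Fintype B] in
theorem Mx_symm (G : SimpleGraph B) (i j : B) : Mx G i j = Mx G j i := by
  unfold Mx
  simp only [G.adj_comm i j, eq_comm (a := i) (b := j)]

omit [Fintype B] in
theorem Mx_nonneg (G : SimpleGraph B) (i j : B) : 0 ≤ Mx G i j := by
  unfold Mx
  have := sqrt5_gt
  split_ifs <;> linarith

theorem bl_eq (G : SimpleGraph B) (x y : B → ℝ) : bl G x y = ∑ i, x i * rw' G y i := by
  unfold bl rw'
  refine sum_congr rfl fun i _ => ?_
  rw [mul_sum]
  refine sum_congr rfl fun j _ => ?_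
  ring

theorem rw'_eq (G : SimpleGraph B) (x : B → ℝ) (i : B) :
    rw' G x i = ∑ j, x j + √5 * x i - ∑ j ∈ univ.filter (G.Adj i), x j := by
  unfold rw' Mx
  have h1 : ∀ j, ((if G.Adj i j then (0 : ℝ) else 1) + (if i = j then √5 else 0)) * x j
      = x j + (if i = j then √5 * x j else 0) - (if G.Adj i j then x j else 0) := by
    intro j
    split_ifs <;> ring
  simp only [h1]
  rw [sum_sub_distrib, sum_add_distrib, sum_ite_eq, if_pos (mem_univ i), sum_filter]

/-- level `k` inside `S` -/
def Lv (G : SimpleGraph B) (S : Finset B) (k : ℕ) : Prop :=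
  ∃ x : B → ℝ, (∀ i, 0 ≤ x i) ∧ (∀ i, i ∉ S → x i = 0) ∧ 0 < ∑ i, x i ∧
    (k : ℝ) * bl G x x ≤ (∑ i, x i) ^ 2

theorem bl_smul (G : SimpleGraph B) (t : ℝ) (x : B → ℝ) :
    bl G (fun i => t * x i) (fun i => t * x i) = t ^ 2 * bl G x x := by
  unfold bl
  rw [mul_sum]
  refine sum_congr rfl fun i _ => ?_
  rw [mul_sum]
  refine sum_congr rfl fun j _ => ?_
  ring

theorem continuous_bl (G : SimpleGraph B) : Continuous fun x : B → ℝ => bl G x x := by
  unfold bl
  fun_prop

/-- minimisers over the simplex of `S` -/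
theorem exists_min (G : SimpleGraph B) {S : Finset B} (hS : S.Nonempty) :
    ∃ x : B → ℝ, (∀ i, 0 ≤ x i) ∧ (∀ i, i ∉ S → x i = 0) ∧ ∑ i, x i = 1 ∧
      ∀ y : B → ℝ, (∀ i, 0 ≤ y i) → (∀ i, i ∉ S → y i = 0) → ∑ i, y i = 1 → bl G x x ≤ bl G y y := by
  set C : Set (B → ℝ) := stdSimplex ℝ B ∩ {x | ∀ i, i ∉ S → x i = 0} with hC
  have hclosed : IsClosed {x : B → ℝ | ∀ i, i ∉ S → x i = 0} := by
    simp only [Set.ofPred_forall]
    refine isClosed_iInter fun i => isClosed_iInter fun _ => isClosed_eq (continuous_apply i) continuous_const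
  have hcomp : IsCompact C := (isCompact_stdSimplex ℝ B).inter_right hclosed
  obtain ⟨s, hs⟩ := hS
  have hne : C.Nonempty := by
    refine ⟨Pi.single s 1, ⟨⟨fun i => ?_, ?_⟩, fun i hi => ?_⟩⟩
    · by_cases h : i = s
      · subst h; simp
      · simp [h]
    · simp [Pi.single_apply]
    · have : i ≠ s := fun e => hi (e ▸ hs)
      simp [this]
  obtain ⟨x, hx, hmin⟩ := hcomp.exists_isMinOn hne (continuous_bl G).continuousOn
  exact ⟨x, hx.1.1, hx.2, hx.1.2, fun y h1 h2 h3 => hmin ⟨⟨h1, h3⟩, h2⟩⟩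

theorem bl_add (G : SimpleGraph B) (x d : B → ℝ) (t : ℝ) :
    bl G (fun i => x i + t * d i) (fun i => x i + t * d i)
      = bl G x x + 2 * t * (∑ i, d i * rw' G x i) + t ^ 2 * bl G d d := by
  have e1 : bl G d x = ∑ i, d i * rw' G x i := bl_eq G d x
  have e2 : bl G x d = bl G d x := by
    unfold bl
    rw [sum_comm]
    refine sum_congr rfl fun i _ => sum_congr rfl fun j _ => ?_
    rw [Mx_symm G j i]; ring
  have e3 : bl G (fun i => x i + t * d i) (fun i => x i + t * d i)
      = bl G x x + t * bl G d x + t * bl G x d + t ^ 2 * bl G d d := by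
    unfold bl
    simp only [mul_sum, ← sum_add_distrib]
    refine sum_congr rfl fun i _ => sum_congr rfl fun j _ => ?_
    ring
  rw [e3, e2, e1]; ring

/-- first order conditions -/
theorem kkt (G : SimpleGraph B) {S : Finset B} {x : B → ℝ} (hx0 : ∀ i, 0 ≤ x i)
    (hxS : ∀ i, i ∉ S → x i = 0) (hx1 : ∑ i, x i = 1)
    (hmin : ∀ y : B → ℝ, (∀ i, 0 ≤ y i) → (∀ i, i ∉ S → y i = 0) → ∑ i, y i = 1 →
      bl G x x ≤ bl G y y) {j : B} (hj : 0 < x j) : rw' G x j = bl G x x := by
  have hle : ∀ i ∈ S, ∀ j, 0 < x j → rw' G x j ≤ rw' G x i := by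
    intro i hi j hj
    by_contra hlt
    push Not at hlt
    have hij : i ≠ j := by rintro rfl; exact lt_irrefl _ hlt
    set d : B → ℝ := fun k => (if k = i then 1 else 0) - (if k = j then 1 else 0) with hd
    have hdr : ∑ k, d k * rw' G x k = rw' G x i - rw' G x j := by
      simp only [hd, sub_mul, ite_mul, one_mul, zero_mul, sum_sub_distrib, sum_ite_eq', mem_univ, if_true]
    have hd1 : ∑ k, d k = 0 := by
      simp [hd, sum_sub_distrib]
    set δ := rw' G x j - rw' G x i with hδ
    have hδ0 : 0 < δ := by linarith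
    set t := min (x j) (δ / (|bl G d d| + 1)) with ht
    have hC : 0 < |bl G d d| + 1 := by positivity
    have ht0 : 0 < t := lt_min hj (by positivity)
    have htj : t ≤ x j := min_le_left _ _
    have htd : t * (|bl G d d| + 1) ≤ δ := by
      have := min_le_right (x j) (δ / (|bl G d d| + 1))
      rw [← ht, le_div_iff₀ hC] at this
      exact this
    have := hmin (fun k => x k + t * d k) (fun k => ?_) (fun k hk => ?_) ?_
    · rw [bl_add, hdr] at this
      have h1 : t * bl G d d ≤ t * |bl G d d| := mul_le_mul_of_nonneg_left (le_abs_self _) ht0.le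
      have h2 : t * (2 * (rw' G x i - rw' G x j) + t * bl G d d) < 0 := by
        refine mul_neg_of_pos_of_neg ht0 ?_
        have h4 : rw' G x i - rw' G x j = -δ := by rw [hδ]; ring
        rw [h4]
        nlinarith
      nlinarith
    · by_cases hki : k = i
      · subst hki
        have hdk : d k = 1 := by simp [hd, hij]
        have := hx0 k
        rw [hdk]
        linarith
      · by_cases hkj : k = j
        · subst hkj
          have hdk : d k = -1 := by simp [hd, hki]
          rw [hdk]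
          linarith
        · simp only [hd, if_neg hki, if_neg hkj]
          have := hx0 k
          linarith
    · have hki : k ≠ i := fun e => hk (e ▸ hi)
      have hkj : k ≠ j := by
        rintro rfl
        rw [hxS k hk] at hj
        exact lt_irrefl _ hj
      simp only [hd, if_neg hki, if_neg hkj, hxS k hk]
      ring
    · rw [sum_add_distrib, ← mul_sum, hd1, hx1]; ring
  have hjS : j ∈ S := by
    by_contra h
    rw [hxS j h] at hj
    exact lt_irrefl _ hj
  have h1 : bl G x x = ∑ i, x i * rw' G x j := by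
    rw [bl_eq]
    refine sum_congr rfl fun i _ => ?_
    rcases (hx0 i).lt_or_eq with h | h
    · have hiS : i ∈ S := by
        by_contra h'
        rw [hxS i h'] at h
        exact lt_irrefl _ h
      rw [le_antisymm (hle j hjS i h) (hle i hiS j hj)]
    · rw [← h]; ring
  rw [h1, ← sum_mul, hx1, one_mul]

/-- passing to a neighbourhood lowers the level by at most one -/
theorem lemN (G : SimpleGraph B) {S : Finset B} {k : ℕ} (hk : 1 ≤ k) (h : Lv G S (k + 1)) :
    ∃ v ∈ S, Lv G (S.filter (G.Adj v)) k := by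
  obtain ⟨x0, hx00, hx0S, hx0s, hx0l⟩ := h
  have hSne : S.Nonempty := by
    by_contra hne
    rw [not_nonempty_iff_eq_empty] at hne
    have : ∑ i, x0 i = 0 := sum_eq_zero fun i _ => hx0S i (by simp [hne])
    linarith
  obtain ⟨x, hx, hxS, hx1, hmin⟩ := exists_min G hSne
  set m := bl G x x with hm
  -- `(k + 1) m ≤ 1`
  have hkm : ((k : ℝ) + 1) * m ≤ 1 := by
    set s := ∑ i, x0 i with hs
    have h1 := hmin (fun i => s⁻¹ * x0 i) (fun i => mul_nonneg (inv_nonneg.2 hx0s.le) (hx00 i))
      (fun i hi => by rw [hx0S i hi, mul_zero]) (by rw [← mul_sum, inv_mul_cancel₀ hx0s.ne'])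
    rw [bl_smul] at h1
    push_cast at hx0l
    have h2 : ((k : ℝ) + 1) * m ≤ ((k : ℝ) + 1) * (s⁻¹ ^ 2 * bl G x0 x0) :=
      mul_le_mul_of_nonneg_left h1 (by positivity)
    have h3 : ((k : ℝ) + 1) * (s⁻¹ ^ 2 * bl G x0 x0) = s⁻¹ ^ 2 * (((k : ℝ) + 1) * bl G x0 x0) := by ring
    have h4 : s⁻¹ ^ 2 * (((k : ℝ) + 1) * bl G x0 x0) ≤ s⁻¹ ^ 2 * s ^ 2 :=
      mul_le_mul_of_nonneg_left hx0l (by positivity)
    have h5 : s⁻¹ ^ 2 * s ^ 2 = 1 := by
      rw [← mul_pow, inv_mul_cancel₀ hx0s.ne', one_pow]
    linarith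
  have hm0 : 0 ≤ m := by
    rw [hm]
    unfold bl
    exact sum_nonneg fun i _ => sum_nonneg fun j _ => mul_nonneg (mul_nonneg (hx i) (Mx_nonneg G i j)) (hx j)
  have hk1 : (1 : ℝ) ≤ k := by exact_mod_cast hk
  obtain ⟨v, hv⟩ : ∃ v, 0 < x v := by
    by_contra hne
    push Not at hne
    have : ∑ i, x i ≤ 0 := sum_nonpos fun i _ => hne i
    linarith
  have hvS : v ∈ S := by
    by_contra h'
    rw [hxS v h'] at hv
    exact lt_irrefl _ hv
  refine ⟨v, hvS, fun i => if G.Adj v i then x i else 0, fun i => ?_, fun i hi => ?_, ?_, ?_⟩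
  · simp only
    split_ifs
    · exact hx i
    · exact le_rfl
  · simp only
    split_ifs with hadj
    · exact hxS i fun hiS => hi (mem_filter.2 ⟨hiS, hadj⟩)
    · rfl
  all_goals
    have hrow := kkt G hx hxS hx1 hmin hv
    rw [rw'_eq, hx1, ← hm] at hrow
    rw [← sum_filter]
    have hs : ∑ j ∈ univ.filter (G.Adj v), x j = 1 - m + √5 * x v := by linarith
    have h5 := sqrt5_gt
    have hxv : 0 < √5 * x v := by positivity
    rw [hs]
  · nlinarith
  · -- `Q(z) ≤ m ∑ z`
    have hQ : bl G (fun i => if G.Adj v i then x i else 0) (fun i => if G.Adj v i then x i else 0)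
        ≤ m * (1 - m + √5 * x v) := by
      rw [bl_eq, ← hs, sum_filter, mul_sum]
      refine sum_le_sum fun i _ => ?_
      split_ifs with hadj
      · rcases (hx i).lt_or_eq with h' | h'
        · have hle : rw' G (fun i => if G.Adj v i then x i else 0) i ≤ rw' G x i := by
            unfold rw'
            refine sum_le_sum fun j _ => mul_le_mul_of_nonneg_left ?_ (Mx_nonneg G i j)
            show (if G.Adj v j then x j else 0) ≤ x j
            split_ifs
            · exact le_rfl
            · exact hx j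
          rw [kkt G hx hxS hx1 hmin h', ← hm] at hle
          calc x i * rw' G (fun i => if G.Adj v i then x i else 0) i ≤ x i * m :=
                mul_le_mul_of_nonneg_left hle h'.le
            _ = m * x i := mul_comm _ _
        · rw [← h']; simp
      · simp
    have hpos : 0 ≤ 1 - m + √5 * x v := by nlinarith
    have h6 : (k : ℝ) * m ≤ 1 - m + √5 * x v := by nlinarith
    calc (k : ℝ) * bl G _ _ ≤ k * (m * (1 - m + √5 * x v)) := mul_le_mul_of_nonneg_left hQ (by positivity)
      _ = (k * m) * (1 - m + √5 * x v) := by ring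
      _ ≤ (1 - m + √5 * x v) * (1 - m + √5 * x v) := mul_le_mul_of_nonneg_right h6 hpos
      _ = _ := by ring

end

end Pool.Agent.CrgTail
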