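import Pool.Agent.CrgTail.Level
import Pool.Agent.CrgTail.HostTwo

set_option autoImplicit false

/-!
# Positive levels give colorings of `H`
-/

namespace Pool.Agent.CrgTail

open Finset

section
open Classical

variable {B : Type} [Fintype B]

theorem clique_of_lv (G : SimpleGraph B) : ∀ (k : ℕ) (S : Finset B), Lv G S (k + 1) →
    ∃ f : Fin k → B, Function.Injective f ∧ (∀ i, f i ∈ S) ∧ (∀ i j, i ≠ j → G.Adj (f i) (f j)) ∧
      ∃ S' ⊆ S, (∀ i, ∀ s ∈ S', G.Adj (f i) s) ∧ Lv G S' 1 := by
  intro k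
  induction k with
  | zero =>
    intro S h
    exact ⟨fun i => i.elim0, fun i => i.elim0, fun i => i.elim0, fun i => i.elim0, S, Subset.refl S,
      fun i => i.elim0, h⟩
  | succ k ih =>
    intro S h
    obtain ⟨v, hv, hlv⟩ := lemN G (by omega : 1 ≤ k + 1) h
    obtain ⟨f, hf, hfS, hfa, S', hS', hfS', hl⟩ := ih _ hlv
    have hvf : ∀ i, G.Adj v (f i) := fun i => (mem_filter.1 (hfS i)).2
    refine ⟨Fin.cons v f, ?_, ?_, ?_, S', hS'.trans (filter_subset _ _), ?_, hl⟩
    · rw [Fin.cons_injective_iff]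
      refine ⟨?_, hf⟩
      rintro ⟨i, hi⟩
      exact (hvf i).ne hi.symm
    · intro i
      refine Fin.cases ?_ (fun i => ?_) i
      · simpa using hv
      · simpa using (mem_filter.1 (hfS i)).1
    · intro i j
      refine Fin.cases ?_ (fun i => ?_) i <;> refine Fin.cases ?_ (fun j => ?_) j
      · intro h; exact absurd rfl h
      · intro _; simpa using hvf j
      · intro _; simpa using (hvf i).symm
      · intro h; simpa using hfa i j fun e => h (by rw [e])
    · intro i
      refine Fin.cases ?_ (fun i => ?_) i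
      · intro s hs
        simpa using (mem_filter.1 (hS' hs)).2
      · intro s hs
        simpa using hfS' i s hs

theorem bl_eq_Rf (G : SimpleGraph B) {S : Finset B} {x : B → ℝ} (hx : ∀ i, i ∉ S → x i = 0) :
    bl G x x = (∑ i, x i) ^ 2 + Rf G S x := by
  have h1 : ∑ i ∈ S, x i ^ 2 = ∑ i, x i ^ 2 :=
    sum_subset (subset_univ S) fun i _ hi => by rw [hx i hi]; ring
  have h2 : En G S x = ∑ i, ∑ j, if G.Adj i j then x i * x j else 0 := by
    unfold En
    rw [sum_subset (subset_univ S) fun i _ hi => ?_]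
    · refine sum_congr rfl fun i _ => ?_
      refine sum_subset (subset_univ S) fun j _ hj => ?_
      rw [hx j hj]; simp
    · refine sum_eq_zero fun j _ => ?_
      rw [hx i hi]; simp
  unfold Rf
  rw [h1, h2, bl_eq]
  have h3 : ∀ i, x i * rw' G x i
      = x i * (∑ j, x j) + √5 * x i ^ 2 - ∑ j, if G.Adj i j then x i * x j else 0 := by
    intro i
    rw [rw'_eq, sum_filter]
    have : ∑ j, (if G.Adj i j then x i * x j else 0) = x i * ∑ j, if G.Adj i j then x j else 0 := by
      rw [mul_sum]
      refine sum_congr rfl fun j _ => ?_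
      split_ifs <;> ring
    rw [this]; ring
  simp only [h3]
  rw [sum_sub_distrib, sum_add_distrib, ← sum_mul, ← mul_sum]
  ring

theorem level_one (G : SimpleGraph B) {S : Finset B} (h : Lv G S 1) :
    (∃ v ∈ S, 4 ≤ dg G S v) ∨ ∃ v ∈ S, ∃ w ∈ S, v ≠ w ∧ 3 ≤ dg G S v ∧ 3 ≤ dg G S w := by
  obtain ⟨x, hx, hxS, hx1, hl⟩ := h
  rw [bl_eq_Rf G hxS] at hl
  have hR : Rf G S x ≤ 0 := by
    push_cast at hl
    linarith
  by_contra hc
  push Not at hc
  obtain ⟨h4, h3⟩ := hc
  have hne : ∃ i ∈ S, x i ≠ 0 := by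
    by_contra hne
    push Not at hne
    have : ∑ i, x i = 0 := sum_eq_zero fun i _ => by
      by_cases hi : i ∈ S
      · exact hne i hi
      · exact hxS i hi
    linarith
  have := Rf_pos G S x hne (fun v hv => Nat.le_of_lt_succ (h4 v hv)) (fun v hv w hw hvw h1 h2 => by
    have := h3 v hv w hw hvw h1
    omega)
  linarith

theorem exists_inj {S : Finset B} {n : ℕ} (h : n ≤ S.card) :
    ∃ s : Fin n → B, Function.Injective s ∧ ∀ i, s i ∈ S := by
  obtain ⟨T, hT, hc⟩ := exists_subset_card_eq h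
  refine ⟨fun i => ((equivFinOfCardEq hc).symm i).1, fun i j e => ?_, fun i => hT ((equivFinOfCardEq hc).symm i).2⟩
  exact (equivFinOfCardEq hc).symm.injective (Subtype.ext e)

theorem hosts_eleven (G : SimpleGraph B) {S : Finset B} (h : Lv G S 1) : Hosts 11 G := by
  rcases level_one G h with ⟨v, hv, h4⟩ | ⟨v, hv, w, hw, hvw, hv3, hw3⟩
  · obtain ⟨s, hs, hs'⟩ := exists_inj (show 4 ≤ (S.filter (G.Adj v)).card from h4)
    exact host_deg4 v s hs fun i => (mem_filter.1 (hs' i)).2
  · have key : ∀ v, 3 ≤ dg G S v → ∃ A : Finset B, A.card = 4 ∧ v ∈ A ∧ ∀ x ∈ A, x ≠ v → G.Adj v x := by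
      intro v hv3
      obtain ⟨T, hT, hc⟩ := exists_subset_card_eq (show 3 ≤ (S.filter (G.Adj v)).card from hv3)
      have hvT : v ∉ T := fun h => G.irrefl (mem_filter.1 (hT h)).2
      refine ⟨insert v T, by rw [card_insert_of_notMem hvT, hc], mem_insert_self v T, ?_⟩
      intro x hx hxv
      rcases mem_insert.1 hx with h | h
      · exact absurd h hxv
      · exact (mem_filter.1 (hT h)).2
    obtain ⟨A, hA, hvA, hA'⟩ := key v hv3
    obtain ⟨C, hC, hwC, hC'⟩ := key w hw3
    exact host_two hvw hA hC hvA hwC hA' hC'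

/-- level `k` with `12 - k` whites gives a coloring of `H` -/
theorem hosts_of_lv (G : SimpleGraph B) {S : Finset B} {k : ℕ} (hk : 1 ≤ k) (hk' : k ≤ 12)
    (h : Lv G S k) : Hosts (12 - k) G := by
  rcases Nat.lt_or_ge k 2 with h2 | h2
  · obtain rfl : k = 1 := by omega
    exact hosts_eleven G h
  · obtain ⟨K, rfl⟩ : ∃ K, k = K + 1 := ⟨k - 1, by omega⟩
    obtain ⟨f, hf, hfS, hfa, S', hS', hfS', hl⟩ := clique_of_lv G K S h
    obtain ⟨v, hv, hv3⟩ : ∃ v ∈ S', 3 ≤ dg G S' v := by
      rcases level_one G hl with ⟨v, hv, h4⟩ | ⟨v, hv, w, hw, hvw, hv3, hw3⟩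
      · exact ⟨v, hv, by omega⟩
      · exact ⟨v, hv, hv3⟩
    obtain ⟨s, hs, hs'⟩ := exists_inj (show 3 ≤ (S'.filter (G.Adj v)).card from hv3)
    have hsS : ∀ i, s i ∈ S' := fun i => (mem_filter.1 (hs' i)).1
    have hvs : ∀ i, G.Adj v (s i) := fun i => (mem_filter.1 (hs' i)).2
    have hfv : ∀ i, G.Adj (f i) v := fun i => hfS' i v hv
    have hfs : ∀ i j, G.Adj (f i) (s j) := fun i j => hfS' i _ (hsS j)
    set g : Fin (K + 1 + 3) → B := fun i =>
      if h : i.1 < K then f ⟨i.1, h⟩ else if h' : i.1 = K then v else s ⟨i.1 - (K + 1), by omega⟩ with hg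
    have hadj : ∀ i j : Fin (K + 1 + 3), i.1 < j.1 → i.1 < K + 1 → G.Adj (g i) (g j) := by
      intro i j hij hi
      simp only [hg]
      by_cases h1 : i.1 < K
      · rw [dif_pos h1]
        by_cases h3 : j.1 < K
        · rw [dif_pos h3]
          exact hfa _ _ fun e => by
            have := congrArg Fin.val e
            simp only at this
            omega
        · rw [dif_neg h3]
          by_cases h4 : j.1 = K
          · rw [dif_pos h4]; exact hfv _
          · rw [dif_neg h4]; exact hfs _ _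
      · rw [dif_neg h1, dif_pos (by omega), dif_neg (by omega), dif_neg (by omega)]
        exact hvs _
    have hinj : Function.Injective g := by
      intro i j e
      by_contra hne
      have hne' : i.1 ≠ j.1 := fun e => hne (Fin.ext e)
      rcases Nat.lt_or_ge i.1 (K + 1) with hi | hi
      · rcases lt_or_gt_of_ne hne' with hlt | hlt
        · exact (hadj i j hlt hi).ne e
        · exact (hadj j i hlt (by omega)).ne e.symm
      · rcases Nat.lt_or_ge j.1 (K + 1) with hj | hj
        · exact (hadj j i (by omega) hj).ne e.symm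
        · simp only [hg] at e
          rw [dif_neg (by omega), dif_neg (by omega), dif_neg (by omega), dif_neg (by omega)] at e
          have := congrArg Fin.val (hs e)
          simp only at this
          omega
    refine (host_T h2 hk').mono le_rfl g hinj fun x y hxy => ?_
    have hne : x.1 ≠ y.1 := fun e => hxy.1 (Fin.ext e)
    rcases lt_or_gt_of_ne hne with hlt | hlt
    · refine hadj x y hlt ?_
      rcases hxy.2 with h | h <;> omega
    · refine (hadj y x hlt ?_).symm
      rcases hxy.2 with h | h <;> omega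

end

end Pool.Agent.CrgTail
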