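import Pool.Agent.CrgTail.LevelHost
import Pool.Agent.Crg.Class

set_option autoImplicit false

/-!
# Colored regularity graphs with a black vertex have `g_K(√5 - 2) > (√5 - 2) / 12`
-/

namespace Pool.Agent.CrgTail

open Finset Pool.Agent.Crg

/-- a coloring of `H` gives a colored homomorphism -/
theorem not_avoids {V : Type} {K : CRG V} (hb : ∀ i j, i ≠ j → K.col i j ≠ 2)
    (hw : ∀ i j, i ≠ j → K.black i = false → K.col i j = 1) {r : ℕ} {B : Type} {G : SimpleGraph B}
    (w : Fin r → V) (hwi : Function.Injective w) (hww : ∀ i, K.black (w i) = false)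
    (ι : B → V) (hιi : Function.Injective ι) (hιb : ∀ x, K.black (ι x) = true)
    (hG : ∀ x y, G.Adj x y → K.col (ι x) (ι y) ≠ 0) (h : Hosts r G) : ¬ Avoids H K := by
  intro hav
  obtain ⟨φ, hφ⟩ := h
  refine hav ⟨fun v => Sum.elim w ι (φ v), fun a b hab => ?_⟩
  have hok := hφ a b hab
  beta_reduce
  have hwι : ∀ i x, w i ≠ ι x := fun i x e => by
    have h1 := hww i
    rw [e, hιb x] at h1
    exact absurd h1 (by decide)
  constructor
  · intro hadj
    have hadj' : adjB a b = true := hadj
    rw [hadj'] at hok
    cases ha : φ a with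
    | inl i =>
      cases hb' : φ b with
      | inl j =>
        rw [ha, hb'] at hok
        have hne : w i ≠ w j := fun e => hok (hwi e)
        exact Or.inr ⟨hne, by
          show K.col (w i) (w j) ≠ 0
          rw [hw _ _ hne (hww i)]; decide⟩
      | inr y =>
        exact Or.inr ⟨hwι i y, by
          show K.col (w i) (ι y) ≠ 0
          rw [hw _ _ (hwι i y) (hww i)]; decide⟩
    | inr x =>
      cases hb' : φ b with
      | inl j =>
        exact Or.inr ⟨(hwι j x).symm, by
          show K.col (ι x) (w j) ≠ 0
          rw [K.symm, hw _ _ (hwι j x) (hww j)]; decide⟩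
      | inr y =>
        rw [ha, hb'] at hok
        rcases hok with e | e
        · exact Or.inl ⟨congrArg ι e, hιb x⟩
        · exact Or.inr ⟨fun e' => e.ne (hιi e'), hG x y e⟩
  · intro hadj
    have hadj' : adjB a b = false := by
      cases h : adjB a b
      · rfl
      · exact absurd h hadj
    rw [hadj'] at hok
    cases ha : φ a with
    | inl i =>
      cases hb' : φ b with
      | inl j =>
        by_cases hij : i = j
        · subst hij
          exact Or.inl ⟨rfl, hww i⟩
        · have hne : w i ≠ w j := fun e => hij (hwi e)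
          exact Or.inr ⟨hne, hb _ _ hne⟩
      | inr y => exact Or.inr ⟨hwι i y, hb _ _ (hwι i y)⟩
    | inr x =>
      cases hb' : φ b with
      | inl j => exact Or.inr ⟨(hwι j x).symm, hb _ _ (hwι j x).symm⟩
      | inr y =>
        rw [ha, hb'] at hok
        have hne : ι x ≠ ι y := fun e => hok (hιi e)
        exact Or.inr ⟨hne, hb _ _ hne⟩

/-- the gray graph on the black vertices -/
def blackGraph {V : Type} (K : CRG V) : SimpleGraph {v // K.black v = true} where
  Adj x y := x ≠ y ∧ K.col x.1 y.1 = 1
  symm := ⟨fun x y h => ⟨h.1.symm, by rw [K.symm]; exact h.2⟩⟩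
  loopless := ⟨fun x h => h.1 rfl⟩

/-- the special value of `p` -/
noncomputable def p0 : ℝ := √5 - 2

theorem p0_pos : 0 < p0 := by
  have := sqrt5_gt
  unfold p0; linarith

theorem p0_lt : p0 < 1 / 4 := by
  have := sqrt5_lt
  unfold p0; linarith

theorem form_split {V : Type} [Fintype V] [DecidableEq V] {K : CRG V} (hb : ∀ i j, i ≠ j → K.col i j ≠ 2)
    (hw : ∀ i j, i ≠ j → K.black i = false → K.col i j = 1) (x : V → ℝ) :
    form K p0 x = p0 * (∑ i : {v // ¬ K.black v = true}, x i.1 ^ 2 +
      bl (blackGraph K) (fun i => x i.1) (fun i => x i.1)) := by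
  have h5 := sqrt5_sq
  have hmat : ∀ i j, mat K p0 i j = if K.black i = true ∧ K.black j = true then
      p0 * ((if i ≠ j ∧ K.col i j = 1 then 0 else 1) + (if i = j then √5 else 0))
      else if i = j then p0 else 0 := by
    intro i j
    unfold mat
    by_cases hij : i = j
    · subst hij
      by_cases hbi : K.black i = true
      · simp only [hbi, if_true, and_self, ne_eq, not_true_eq_false, false_and, if_false]
        unfold p0
        nlinarith
      · simp [hbi]
    · rw [if_neg hij]
      by_cases hbi : K.black i = true ∧ K.black j = true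
      · rw [if_pos hbi]
        by_cases hc : K.col i j = 1
        · simp [hc, hij]
        · have hc2 := hb i j hij
          have hc0 : K.col i j = 0 := by
            generalize K.col i j = c at *
            fin_cases c <;> simp_all
          simp [hc0, hij]
      · rw [if_neg hbi, if_neg hij]
        have hc : K.col i j = 1 := by
          by_cases hi : K.black i = true
          · have hj : K.black j = false := by
              cases h : K.black j
              · rfl
              · exact absurd ⟨hi, h⟩ hbi
            rw [K.symm]; exact hw j i (Ne.symm hij) hj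
          · exact hw i j hij (by simpa using hi)
        simp [hc]
  unfold form
  rw [← Fintype.sum_subtype_add_sum_subtype (fun v => K.black v = true)]
  have hblack : ∀ i : {v // K.black v = true}, ∑ j, x i.1 * mat K p0 i.1 j * x j
      = p0 * ∑ j : {v // K.black v = true}, x i.1 * Mx (blackGraph K) i j * x j.1 := by
    intro i
    rw [← Fintype.sum_subtype_add_sum_subtype (fun v => K.black v = true)]
    have h0 : ∑ j : {v // ¬ K.black v = true}, x i.1 * mat K p0 i.1 j.1 * x j.1 = 0 := by
      refine sum_eq_zero fun j _ => ?_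
      have hij : i.1 ≠ j.1 := fun e => j.2 (e ▸ i.2)
      rw [hmat, if_neg (fun h => j.2 h.2), if_neg hij]; ring
    rw [h0, add_zero, mul_sum]
    refine sum_congr rfl fun j _ => ?_
    rw [hmat, if_pos ⟨i.2, j.2⟩]
    unfold Mx
    have e1 : (i.1 ≠ j.1 ∧ K.col i.1 j.1 = 1) ↔ (blackGraph K).Adj i j := by
      show _ ↔ (i ≠ j ∧ K.col i.1 j.1 = 1)
      rw [Ne, Ne, Subtype.ext_iff]
    have e2 : (i.1 = j.1) ↔ i = j := Subtype.ext_iff.symm
    split_ifs <;> first | ring1 | (exfalso; tauto)
  have hwhite : ∀ i : {v // ¬ K.black v = true}, ∑ j, x i.1 * mat K p0 i.1 j * x j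
      = p0 * x i.1 ^ 2 := by
    intro i
    rw [sum_eq_single i.1]
    · rw [hmat, if_neg (fun h => i.2 h.1), if_pos rfl]; ring
    · intro j _ hj
      rw [hmat, if_neg (fun h => i.2 h.1), if_neg hj.symm]; ring
    · intro h; exact absurd (mem_univ _) h
  rw [sum_congr rfl fun i _ => hblack i, sum_congr rfl fun i _ => hwhite i, ← mul_sum, ← mul_sum]
  unfold bl
  ring

/-- the lower bound for colored regularity graphs with a black vertex -/
theorem form_gt {V : Type} [Fintype V] {K : CRG V} (hav : Avoids H K)
    (hb : ∀ i j, i ≠ j → K.col i j ≠ 2)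
    (hw : ∀ i j, i ≠ j → K.black i = false → K.col i j = 1) (hex : ∃ v, K.black v = true)
    {x : V → ℝ} (hx : Simp x) : p0 / 12 < form K p0 x := by
  classical
  set r := Fintype.card {v // ¬ K.black v = true} with hr
  -- injections of whites
  have hinj : ∀ m ≤ r, ∃ w : Fin m → V, Function.Injective w ∧ ∀ i, K.black (w i) = false := by
    intro m hm
    set e := (Fintype.equivFin {v // ¬ K.black v = true}).symm
    refine ⟨fun i => (e (Fin.castLE hm i)).1, fun i j h => ?_, fun i => ?_⟩
    · exact Fin.castLE_injective hm (e.injective (Subtype.ext h))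
    · simpa using (e (Fin.castLE hm i)).2
  have hr11 : r ≤ 11 := by
    by_contra hlt
    push Not at hlt
    obtain ⟨w, hwi, hww⟩ := hinj 12 hlt
    obtain ⟨v, hv⟩ := hex
    refine not_avoids hb hw w hwi hww (B := Fin 1) (G := Kc 1) (fun _ => v) (fun a b _ => Subsingleton.elim a b)
      (fun _ => hv) (fun a b hab => absurd (Subsingleton.elim a b) hab) host_12_1 hav
  have hnlv : ¬ Lv (blackGraph K) univ (12 - r) := by
    intro hlv
    obtain ⟨w, hwi, hww⟩ := hinj r le_rfl
    have hh := hosts_of_lv (blackGraph K) (by omega : 1 ≤ 12 - r) (by omega) hlv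
    rw [show 12 - (12 - r) = r by omega] at hh
    exact not_avoids hb hw w hwi hww Subtype.val Subtype.val_injective (fun x => x.2)
      (fun a b hab => by rw [hab.2]; decide) hh hav
  rw [form_split hb hw]
  set a := ∑ i : {v // ¬ K.black v = true}, x i.1 ^ 2 with ha
  set b := bl (blackGraph K) (fun i => x i.1) (fun i => x i.1) with hbd
  set α := ∑ i : {v // ¬ K.black v = true}, x i.1 with hα
  set β := ∑ i : {v // K.black v = true}, x i.1 with hβ
  have hsum : β + α = 1 := by
    rw [hα, hβ, Fintype.sum_subtype_add_sum_subtype (fun v => K.black v = true)]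
    exact hx.2
  have hcs : α ^ 2 ≤ r * a := by
    have := sq_sum_le_card_mul_sum_sq (s := (univ : Finset {v // ¬ K.black v = true})) (f := fun i => x i.1)
    rw [card_univ] at this
    exact this
  have hb0 : 0 ≤ b := by
    rw [hbd]
    unfold bl
    exact sum_nonneg fun i _ => sum_nonneg fun j _ =>
      mul_nonneg (mul_nonneg (hx.1 _) (Mx_nonneg _ i j)) (hx.1 _)
  have ha0 : 0 ≤ a := sum_nonneg fun i _ => sq_nonneg _
  have hβ0 : 0 ≤ β := sum_nonneg fun i _ => hx.1 _
  have hα0 : 0 ≤ α := sum_nonneg fun i _ => hx.1 _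
  have hp := p0_pos
  have hrR : (r : ℝ) ≤ 11 := by exact_mod_cast hr11
  have hr0 : (0 : ℝ) ≤ r := by positivity
  suffices h : 1 < 12 * (a + b) by nlinarith
  rcases hβ0.lt_or_eq with hpos | hzero
  · have hlt : β ^ 2 < (12 - r) * b := by
      by_contra hle
      push Not at hle
      refine hnlv ⟨fun i => x i.1, fun i => hx.1 _, fun i hi => absurd (mem_univ i) hi, hpos, ?_⟩
      rw [Nat.cast_sub (by omega : r ≤ 12)]
      exact_mod_cast hle
    rcases Nat.eq_zero_or_pos r with h0 | h0
    · rw [h0] at hcs hlt
      push_cast at hcs hlt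
      have hα2 : α = 0 := by nlinarith
      have hβ1 : β = 1 := by linarith
      rw [hβ1] at hlt
      linarith
    · have h1 : (1 : ℝ) ≤ r := by exact_mod_cast h0
      set ρ : ℝ := (r : ℝ) with hρ
      have hk : 1 ≤ 12 - ρ := by linarith
      have h3 : ρ * (12 - ρ) < ρ * (12 - ρ) * (12 * (a + b)) := by
        have e1 : (12 - ρ) * α ^ 2 ≤ (12 - ρ) * (ρ * a) := mul_le_mul_of_nonneg_left hcs (by linarith)
        have e2 : ρ * β ^ 2 < ρ * ((12 - ρ) * b) := mul_lt_mul_of_pos_left hlt (by linarith)
        have e3 : ρ * (12 - ρ) * (β + α) ^ 2 ≤ 12 * ((12 - ρ) * α ^ 2 + ρ * β ^ 2) := by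
          nlinarith [sq_nonneg ((12 - ρ) * α - ρ * β)]
        rw [hsum] at e3
        nlinarith
      have h4 : 0 < ρ * (12 - ρ) := by positivity
      by_contra hle
      push Not at hle
      nlinarith
  · have hα1 : α = 1 := by linarith
    rw [hα1] at hcs
    nlinarith

end Pool.Agent.CrgTail
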