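import Pool.Agent.CrgTail.Upper

set_option autoImplicit false

/-!
# Bounded orders do not give the edit distance function to the right of `√5 - 2`
-/

namespace Pool.Agent.CrgTail

open Finset Pool.Agent.Crg

/-- a CRG with black vertices, without black edges, all edges at white vertices being gray -/
def Good {V : Type} (K : CRG V) : Prop :=
  Avoids H K ∧ (∀ i j, i ≠ j → K.col i j ≠ 2) ∧
    (∀ i j, i ≠ j → K.black i = false → K.col i j = 1) ∧ ∃ v, K.black v = true

/-- for bounded orders there is a uniform gap at `p0` -/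
theorem exists_gap (N : ℕ) : ∃ δ > 0, ∀ (k : ℕ) (K : CRG (Fin k)), k ≤ N → Good K →
    p0 / 12 + δ ≤ gfun K p0 := by
  classical
  set T := Σ j : Fin (N + 1), {K : CRG (Fin j) // Good K} with hT
  have : Finite T := inferInstance
  have hgap : ∀ t : T, p0 / 12 < gfun t.2.1 p0 := by
    rintro ⟨⟨j, hj⟩, K, hav, hb, hw, hex⟩
    obtain ⟨v, hv⟩ := hex
    have : Nonempty (Fin j) := ⟨v⟩
    obtain ⟨x, hx, hmin⟩ := exists_min_form K p0
    show p0 / 12 < gfun K p0
    rw [gfun_eq hx hmin]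
    exact form_gt hav hb hw ⟨v, hv⟩ hx
  rcases isEmpty_or_nonempty T with hempty | hne
  · refine ⟨1, one_pos, fun k K hk hK => ?_⟩
    exact (hempty.false ⟨⟨k, by omega⟩, K, hK⟩).elim
  · obtain ⟨t0, ht0⟩ := Finite.exists_min (fun t : T => gfun t.2.1 p0)
    refine ⟨gfun t0.2.1 p0 - p0 / 12, by linarith [hgap t0], fun k K hk hK => ?_⟩
    have := ht0 ⟨⟨k, by omega⟩, K, hK⟩
    simp only at this
    linarith

/-- a single white vertex avoids `H` -/
theorem exists_avoids : ∃ K : CRG (Fin 1), Avoids H K := by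
  refine ⟨⟨fun _ => false, fun _ _ => 1, fun _ _ => rfl⟩, ?_⟩
  rintro ⟨φ, hφ⟩
  rcases (hφ .u .z (by decide)).1 rfl with ⟨-, h⟩ | ⟨h, -⟩
  · exact absurd h Bool.false_ne_true
  · exact h (Subsingleton.elim _ _)

/-- orders at most `N` give at least `p / 12` on an interval to the right of `p0` -/
theorem edN_ge {N : ℕ} (hN : 0 < N) : ∃ ε > 0, ∀ p, p0 ≤ p → p ≤ p0 + ε → p / 12 ≤ edN H N p := by
  obtain ⟨δ, hδ, hgap⟩ := exists_gap N
  have h1 := p0_pos
  have h2 := p0_lt
  refine ⟨min (δ / 2) (1 / 4), by positivity, fun p hp hp' => ?_⟩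
  have hpδ : p - p0 ≤ δ / 2 := by linarith [min_le_left (δ / 2) (1 / 4 : ℝ)]
  have hp4 : p ≤ 1 / 2 := by linarith [min_le_right (δ / 2) (1 / 4 : ℝ)]
  have hp0 : 0 < p := by linarith
  obtain ⟨K1, hK1⟩ := exists_avoids
  refine le_csInf ⟨_, 1, K1, one_pos, hN, hK1, rfl⟩ ?_
  rintro e ⟨k, K, hk, hkN, hK, rfl⟩
  obtain ⟨j, K', x, hj, hjk, hext, hfx, hle⟩ := exists_ext hk K hK p
  refine le_trans ?_ hle
  have hb : ∀ i j, i ≠ j → K'.col i j ≠ 2 := fun i j hij => hext.no_black_edge hp4 hij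
  have hw : ∀ i j, i ≠ j → K'.black i = false → K'.col i j = 1 := fun i j hij hi =>
    hext.white_gray hp0 hp4 hij hi
  by_cases hex : ∃ v, K'.black v = true
  · have h3 := hgap j K' (by omega) ⟨hext.avoid, hb, hw, hex⟩
    have : Nonempty (Fin j) := ⟨⟨0, hj⟩⟩
    have h4 := gfun_lip K' p0 p
    rw [abs_sub_comm, abs_of_nonneg (by linarith : 0 ≤ p - p0)] at h4
    linarith
  · push Not at hex
    have hwh : ∀ v, K'.black v = false := fun v => by simpa using hex v
    -- at most 12 white vertices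
    have hj12 : j ≤ 12 := by
      by_contra hlt
      push Not at hlt
      refine not_avoids hb hw (Fin.castLE hlt : Fin 13 → Fin j) (Fin.castLE_injective _)
        (fun i => hwh _) (B := Fin 0) (G := Kc 0) (fun i => i.elim0) (fun i => i.elim0)
        (fun i => i.elim0) (fun i => i.elim0) host_13 hext.avoid
    rw [← hfx]
    have hform : form K' p x = p * ∑ i, x i ^ 2 := by
      unfold form
      rw [mul_sum]
      refine sum_congr rfl fun i _ => ?_
      rw [sum_eq_single i]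
      · unfold mat
        rw [if_pos rfl, if_neg (by rw [hwh i]; decide)]; ring
      · intro l _ hl
        unfold mat
        rw [if_neg hl.symm, hw i l hl.symm (hwh i)]
        simp
      · intro h; exact absurd (mem_univ _) h
    rw [hform]
    have hcs : (∑ i, x i) ^ 2 ≤ (j : ℝ) * ∑ i, x i ^ 2 := by
      have := sq_sum_le_card_mul_sum_sq (s := (univ : Finset (Fin j))) (f := x)
      rw [card_univ, Fintype.card_fin] at this
      exact this
    rw [hext.simp.2] at hcs
    have hj12' : (j : ℝ) ≤ 12 := by exact_mod_cast hj12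
    have hs0 : 0 ≤ ∑ i, x i ^ 2 := sum_nonneg fun i _ => sq_nonneg _
    have : 1 ≤ 12 * ∑ i, x i ^ 2 := by nlinarith
    nlinarith

/-- `p ↦ g_K(p) / p` is nonincreasing -/
theorem form_scale {V : Type} [Fintype V] (K : CRG V) {p q : ℝ} (hp : 0 ≤ p) (hpq : p ≤ q) (hq : 0 < q)
    {x : V → ℝ} (hx : ∀ i, 0 ≤ x i) : p / q * form K q x ≤ form K p x := by
  unfold form
  rw [mul_sum]
  refine sum_le_sum fun i _ => ?_
  rw [mul_sum]
  refine sum_le_sum fun j _ => ?_
  have hm : p / q * mat K q i j ≤ mat K p i j := by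
    have h1 : p / q * q = p := div_mul_cancel₀ p hq.ne'
    have h2 : p / q ≤ 1 := (div_le_one hq).2 hpq
    have h3 : p / q * (1 - q) ≤ 1 - p := by nlinarith
    unfold mat
    split_ifs <;> linarith
  calc p / q * (x i * mat K q i j * x j) = x i * (p / q * mat K q i j) * x j := by ring
    _ ≤ x i * mat K p i j * x j :=
      mul_le_mul_of_nonneg_right (mul_le_mul_of_nonneg_left hm (hx i)) (hx j)

/-- the CRG with `m` white vertices and gray edges -/
def whiteCRG (m : ℕ) : CRG (Fin m) := ⟨fun _ => false, fun _ _ => 1, fun _ _ => rfl⟩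

/-- twelve white vertices avoid `H` -/
theorem white_avoids : Avoids H (whiteCRG 12) := by
  rintro ⟨φ, hφ⟩
  -- a clique with 13 vertices
  let c : Fin 13 → Vtx := fun i => match i with
    | 0 => .part 0 ⟨0, by decide⟩
    | 1 => .part 1 ⟨0, by decide⟩
    | 2 => .part 2 ⟨0, by decide⟩
    | 3 => .part 3 ⟨0, by decide⟩
    | 4 => .part 4 ⟨0, by decide⟩
    | 5 => .part 5 ⟨0, by decide⟩
    | 6 => .part 6 ⟨0, by decide⟩
    | 7 => .d2 0 0
    | 8 => .d2 0 1
    | 9 => .d3 0 0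
    | 10 => .d3 0 1
    | 11 => .d3 0 2
    | 12 => .u
  have hc : ∀ i j, i ≠ j → adjB (c i) (c j) = true := by decide +kernel
  obtain ⟨i, j, hij, he⟩ := Fintype.exists_ne_map_eq_of_card_lt (fun i => φ (c i)) (by simp)
  have hne : c i ≠ c j := by
    intro e
    have := hc i j hij
    rw [e, adjB_self] at this
    exact absurd this (by decide)
  rcases (hφ (c i) (c j) hne).1 (hc i j hij) with ⟨-, h⟩ | ⟨h, -⟩
  · exact absurd h Bool.false_ne_true
  · exact h he

theorem gfun_white {p : ℝ} : gfun (whiteCRG 12) p ≤ p / 12 := by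
  have hs : Simp (fun _ : Fin 12 => (1 / 12 : ℝ)) := ⟨fun _ => by norm_num, by simp⟩
  refine (gfun_le _ p hs).trans (le_of_eq ?_)
  unfold form
  have : ∀ i : Fin 12, ∑ j, (1 / 12 : ℝ) * mat (whiteCRG 12) p i j * (1 / 12) = p / 144 := by
    intro i
    rw [sum_eq_single i]
    · unfold mat; simp [whiteCRG]; ring
    · intro l _ hl
      unfold mat; simp [whiteCRG, hl.symm]
    · intro h; exact absurd (mem_univ _) h
  simp only [this, sum_const, card_univ, Fintype.card_fin, nsmul_eq_mul]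
  norm_num
  ring

theorem edN_le_white {N : ℕ} (hN : 12 ≤ N) {p : ℝ} (h0 : 0 ≤ p) (h1 : p ≤ 1) : edN H N p ≤ p / 12 :=
  (edN_le H h0 h1 (whiteCRG 12) (by norm_num) hN white_avoids).trans gfun_white

theorem ed_le_white {p : ℝ} (h0 : 0 ≤ p) (h1 : p ≤ 1) : ed H p ≤ p / 12 :=
  (ed_le H h0 h1 (whiteCRG 12) (by norm_num) white_avoids).trans gfun_white

theorem ed_le_edN {N : ℕ} (hN : 0 < N) {p : ℝ} (h0 : 0 ≤ p) (h1 : p ≤ 1) : ed H p ≤ edN H N p := by
  obtain ⟨K1, hK1⟩ := exists_avoids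
  refine le_csInf ⟨_, 1, K1, one_pos, hN, hK1, rfl⟩ ?_
  rintro e ⟨k, K, hk, -, hK, rfl⟩
  exact ed_le H h0 h1 K hk hK

/-- exact value to the left of `p0` -/
theorem ed_ge_left {p : ℝ} (h0 : 0 ≤ p) (h1 : p ≤ p0) : p / 12 ≤ ed H p := by
  have g0 := p0_pos
  have g1 := p0_lt
  obtain ⟨K1, hK1⟩ := exists_avoids
  refine le_csInf ⟨_, 1, K1, one_pos, hK1, rfl⟩ ?_
  rintro e ⟨k, K, hk, hK, rfl⟩
  have h2 : p0 / 12 ≤ gfun K p0 := by
    obtain ⟨ε, hε, hge⟩ := edN_ge (N := k) hk
    exact (hge p0 le_rfl (by linarith)).trans (edN_le H g0.le (by linarith) K hk le_rfl hK)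
  have : Nonempty (Fin k) := ⟨⟨0, hk⟩⟩
  obtain ⟨x, hx, hmin⟩ := exists_min_form K p
  rw [gfun_eq hx hmin]
  have h3 := form_scale K h0 h1 g0 hx.1
  have h4 := gfun_le K p0 hx
  have h5 : p / p0 * (p0 / 12) ≤ p / p0 * form K p0 x :=
    mul_le_mul_of_nonneg_left (h2.trans h4) (by positivity)
  have h6 : p / p0 * (p0 / 12) = p / 12 := by field_simp
  linarith

theorem main : (∀ p, 0 ≤ p → p ≤ p0 → ed H p = p / 12) ∧
    (∀ p, p0 < p → p ≤ 1 / 2 → ed H p < p / 12) ∧
    ∀ N, 12 ≤ N → ∃ ε > 0, ∀ p, 0 ≤ p → p ≤ p0 + ε → edN H N p = p / 12 := by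
  have g0 := p0_pos
  have g1 := p0_lt
  refine ⟨fun p h0 h1 => le_antisymm (ed_le_white h0 (by linarith)) (ed_ge_left h0 h1),
    fun p h1 h2 => ed_lt h1 h2, fun N hN => ?_⟩
  obtain ⟨ε, hε, hge⟩ := edN_ge (N := N) (by omega)
  refine ⟨min ε (1 / 4), by positivity, fun p h0 h1 => ?_⟩
  have e1 : p ≤ p0 + ε := h1.trans (by linarith [min_le_left ε (1 / 4 : ℝ)])
  have e2 : p ≤ 1 := h1.trans (by linarith [min_le_right ε (1 / 4 : ℝ)])
  refine le_antisymm (edN_le_white hN h0 e2) ?_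
  rcases le_total p p0 with h | h
  · exact (ed_ge_left h0 h).trans (ed_le_edN (by omega) h0 e2)
  · exact hge p h e1

theorem card_Vtx : Fintype.card Vtx = 71 := by decide +kernel

/-- the graph on `Fin 71` -/
noncomputable def H71 : SimpleGraph (Fin 71) := H.comap (Fintype.equivFinOfCardEq card_Vtx).symm

theorem avoids_H71 {V : Type} (K : CRG V) : Avoids H71 K ↔ Avoids H K := by
  set e := (Fintype.equivFinOfCardEq card_Vtx).symm with he
  unfold Avoids
  rw [not_iff_not]
  constructor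
  · rintro ⟨φ, hφ⟩
    refine ⟨fun v => φ (e.symm v), fun a b hab => ?_⟩
    have := hφ (e.symm a) (e.symm b) (fun h => hab (e.symm.injective h))
    have h1 : H71.Adj (e.symm a) (e.symm b) ↔ H.Adj a b := by
      unfold H71
      rw [SimpleGraph.comap_adj, ← he, e.apply_symm_apply, e.apply_symm_apply]
    rw [h1] at this
    exact this
  · rintro ⟨φ, hφ⟩
    refine ⟨fun v => φ (e v), fun a b hab => ?_⟩
    have := hφ (e a) (e b) (fun h => hab (e.injective h))
    have h1 : H71.Adj a b ↔ H.Adj (e a) (e b) := by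
      unfold H71
      rw [SimpleGraph.comap_adj]
    rw [h1]
    exact this

theorem ed_H71 (p : ℝ) : ed H71 p = ed H p := by
  unfold ed
  simp only [avoids_H71]

theorem edN_H71 (N : ℕ) (p : ℝ) : edN H71 N p = edN H N p := by
  unfold edN
  simp only [avoids_H71]

end Pool.Agent.CrgTail
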