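import Pool.Agent.CrgTail.Defs

set_option autoImplicit false

namespace Pool.Agent.CrgTail

open Finset

/-- closed neighbourhoods in `Tail` -/
def nb (x : ℕ) : Finset ℕ := if x = 2 then {0, 1, 2, 3} else if x ≤ 1 then {0, 1, 2} else {x - 1, x, x + 1}

theorem mem_nb {x y : ℕ} (h : x = y ∨ Tail.Adj x y) : y ∈ nb x := by
  have h' : x = y ∨ x + 1 = y ∨ y + 1 = x ∨ (x = 0 ∧ y = 2) ∨ (x = 2 ∧ y = 0) := h
  unfold nb
  split_ifs with h1 h2 <;> simp only [mem_insert, mem_singleton] <;> omega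

theorem card_nb (x : ℕ) : (nb x).card ≤ 4 := by
  unfold nb
  split_ifs with h1 h2
  · decide
  · decide
  · exact (card_le_three).trans (by norm_num)

theorem eq_two_of_card_nb {x : ℕ} (h : 4 ≤ (nb x).card) : x = 2 := by
  unfold nb at h
  split_ifs at h with h1 h2
  · exact h1
  · exact absurd h (by decide)
  · exact absurd (h.trans card_le_three) (by norm_num)

theorem nb_two : nb 2 = {0, 1, 2, 3} := by simp [nb]

theorem nb_three_inter : nb 3 ∩ nb 2 = {2, 3} := by decide

/-- a coloring of the vertices: `w v = some i` if `v` is in the white class `i`, and otherwise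
`v` is black at the position `p v` -/
structure Col (w : Vtx → Option (Fin 11)) (p : Vtx → ℕ) : Prop where
  ww : ∀ a b i, adjB a b = true → w a = some i → w b = some i → False
  bb : ∀ a b, adjB a b = true → w a = none → w b = none → p b ∈ nb (p a)
  bn : ∀ a b, a ≠ b → adjB a b = false → w a = none → w b = none → p a ≠ p b

variable {w : Vtx → Option (Fin 11)} {p : Vtx → ℕ}

theorem Col.cnt (h : Col w p) {ι : Type} [DecidableEq ι] (f : ι → Vtx) (hf : Function.Injective f)
    (s : Finset ι) {v : Vtx} (hv : w v = none) (hs : ∀ i ∈ s, w (f i) = none)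
    (hadj : ∀ i ∈ s, adjB v (f i) = true) (hna : ∀ i ∈ s, ∀ j ∈ s, adjB (f i) (f j) = false) :
    s.card ≤ 4 ∧ (4 ≤ s.card → p v = 2 ∧ s.image (fun i => p (f i)) = {0, 1, 2, 3}) := by
  have hinj : Set.InjOn (fun i => p (f i)) (s : Set ι) := by
    intro i hi j hj e
    by_contra hne
    exact h.bn (f i) (f j) (fun e' => hne (hf e')) (hna i hi j hj) (hs i hi) (hs j hj) e
  have hcard : (s.image (fun i => p (f i))).card = s.card := card_image_of_injOn hinj
  have hsub : s.image (fun i => p (f i)) ⊆ nb (p v) := by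
    intro x hx
    obtain ⟨i, hi, rfl⟩ := mem_image.1 hx
    exact h.bb v (f i) (hadj i hi) hv (hs i hi)
  have hle : s.card ≤ (nb (p v)).card := hcard ▸ card_le_card hsub
  refine ⟨hle.trans (card_nb _), fun h4 => ?_⟩
  have h2 : p v = 2 := eq_two_of_card_nb (h4.trans hle)
  refine ⟨h2, ?_⟩
  rw [h2, nb_two] at hsub
  exact eq_of_subset_of_card_le hsub (by rw [hcard]; exact (by decide : ({0, 1, 2, 3} : Finset ℕ).card ≤ 4).trans h4)

theorem Col.cnt2 (h : Col w p) {ι : Type} [DecidableEq ι] (f : ι → Vtx) (hf : Function.Injective f)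
    (s : Finset ι) {v x : Vtx} (hv : w v = none) (hx : w x = none) (hv2 : p v = 2) (hx3 : p x = 3)
    (hs : ∀ i ∈ s, w (f i) = none)
    (hadj : ∀ i ∈ s, adjB v (f i) = true) (hadj' : ∀ i ∈ s, adjB x (f i) = true)
    (hna : ∀ i ∈ s, ∀ j ∈ s, adjB (f i) (f j) = false) :
    s.card ≤ 2 ∧ (2 ≤ s.card → ∃ i ∈ s, p (f i) = 3) := by
  have hinj : Set.InjOn (fun i => p (f i)) (s : Set ι) := by
    intro i hi j hj e
    by_contra hne
    exact h.bn (f i) (f j) (fun e' => hne (hf e')) (hna i hi j hj) (hs i hi) (hs j hj) e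
  have hcard : (s.image (fun i => p (f i))).card = s.card := card_image_of_injOn hinj
  have hsub : s.image (fun i => p (f i)) ⊆ {2, 3} := by
    intro y hy
    obtain ⟨i, hi, rfl⟩ := mem_image.1 hy
    rw [← nb_three_inter]
    refine mem_inter.2 ⟨?_, ?_⟩
    · rw [← hx3]; exact h.bb x (f i) (hadj' i hi) hx (hs i hi)
    · rw [← hv2]; exact h.bb v (f i) (hadj i hi) hv (hs i hi)
  have hle : s.card ≤ ({2, 3} : Finset ℕ).card := hcard ▸ card_le_card hsub
  refine ⟨hle, fun h2 => ?_⟩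
  have he : s.image (fun i => p (f i)) = {2, 3} :=
    eq_of_subset_of_card_le hsub (by rw [hcard]; exact h2)
  have h3 : 3 ∈ s.image (fun i => p (f i)) := by rw [he]; simp
  obtain ⟨i, hi, e⟩ := mem_image.1 h3
  exact ⟨i, hi, e⟩

/-- the white classes meeting the set `M` -/
def Wh (w : Vtx → Option (Fin 11)) (M : Vtx → Prop) [DecidablePred M] : Finset (Fin 11) :=
  univ.filter fun i => ∃ v, M v ∧ w v = some i

def isD2 : Vtx → Bool
  | .d2 _ _ => true
  | _ => false

def isD3 : Vtx → Bool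
  | .d3 _ _ => true
  | _ => false

theorem d2_inj (c : Fin 2) : Function.Injective (fun i => Vtx.d2 i c) := fun i j h => by
  simpa using h

theorem d3_inj (c : Fin 3) : Function.Injective (fun i => Vtx.d3 i c) := fun i j h => by
  simpa using h

/-- `D₂` is not entirely black -/
theorem Col.d2_white (h : Col w p) : ∃ i c, w (.d2 i c) ≠ none := by
  by_contra hc
  push Not at hc
  have := (h.cnt (fun i => Vtx.d2 i 1) (d2_inj 1) univ (v := .d2 0 0) (hc 0 0)
    (fun i _ => hc i 1) (by decide) (by decide)).1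
  exact absurd this (by decide)


theorem two_of_three (A B : Finset (Fin 6)) (hA : 2 ≤ A.card) (hB : 2 ≤ B.card)
    (hA' : ∀ i ∈ A, 3 ≤ i.1) (hB' : ∀ i ∈ B, 3 ≤ i.1) : ∃ i, i ∈ A ∧ i ∈ B := by
  by_contra hc
  push Not at hc
  have hd : Disjoint A B := disjoint_left.2 hc
  have h1 : (A ∪ B).card = A.card + B.card := card_union_of_disjoint hd
  have h2 : A ∪ B ⊆ univ.filter (fun i : Fin 6 => 3 ≤ i.1) := by
    intro i hi
    rcases mem_union.1 hi with h | h
    · simpa using hA' i h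
    · simpa using hB' i h
  have h3 := card_le_card h2
  have h4 : (univ.filter (fun i : Fin 6 => 3 ≤ i.1)).card = 3 := by decide
  omega

theorem card_compl_6 (A : Finset (Fin 6)) : Aᶜ.card = 6 - A.card := by
  rw [card_compl, Fintype.card_fin]

theorem card_compl_5 (A : Finset (Fin 5)) : Aᶜ.card = 5 - A.card := by
  rw [card_compl, Fintype.card_fin]

/-- indices of the white vertices of `D₃` in color `c` -/
def w3 (w : Vtx → Option (Fin 11)) (c : Fin 3) : Finset (Fin 6) :=
  univ.filter fun i => w (.d3 i c) ≠ none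

def w2 (w : Vtx → Option (Fin 11)) (c : Fin 2) : Finset (Fin 5) :=
  univ.filter fun i => w (.d2 i c) ≠ none

theorem d3_adj (i j : Fin 6) (a b : Fin 3) (hab : a ≠ b) (h : i = j ∨ i.1 < 3 ∨ j.1 < 3) :
    adjB (.d3 i a) (.d3 j b) = true := by
  simp only [adjB, Bool.and_eq_true, Bool.or_eq_true, decide_eq_true_eq]
  exact ⟨hab, by tauto⟩

theorem d2_adj (i j : Fin 5) (a b : Fin 2) (hab : a ≠ b) (h : i = j ∨ i.1 < 2 ∨ j.1 < 2) :
    adjB (.d2 i a) (.d2 j b) = true := by
  simp only [adjB, Bool.and_eq_true, Bool.or_eq_true, decide_eq_true_eq]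
  exact ⟨hab, by tauto⟩

theorem d3_nadj (i j : Fin 6) (a : Fin 3) : adjB (.d3 i a) (.d3 j a) = false := by
  simp [adjB]

theorem d2_nadj (i j : Fin 5) (a : Fin 2) : adjB (.d2 i a) (.d2 j a) = false := by
  simp [adjB]

theorem fin2_ne (a : Fin 2) : a ≠ 1 - a := by
  revert a; decide

theorem exists_other (a : Fin 3) : ∃ b c : Fin 3, b ≠ a ∧ c ≠ a ∧ b ≠ c := by
  revert a; decide

theorem exists_other1 (a b : Fin 3) : ∃ c : Fin 3, c ≠ a ∧ c ≠ b := by
  revert a b; decide

/-- the white vertices of `D₃` do not all lie in one class -/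
theorem Col.d3_white (h : Col w p) (c0 : Fin 11) (hc0 : ∀ i c, w (.d3 i c) = none ∨ w (.d3 i c) = some c0) :
    False := by
  -- no core vertex is white
  have hsome : ∀ i c, i ∈ w3 w c → w (.d3 i c) = some c0 := by
    intro i c hi
    have : w (.d3 i c) ≠ none := by simpa [w3] using hi
    exact (hc0 i c).resolve_left this
  have hleaf : ∀ a, ∀ i ∈ w3 w a, 3 ≤ i.1 := by
    intro a i hi
    by_contra hlt
    push Not at hlt
    obtain ⟨b, c, hba, hca, hbc⟩ := exists_other a
    have hw := hsome i a hi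
    have hall : ∀ d, d ≠ a → ∀ j, w (.d3 j d) = none := by
      intro d hd j
      rcases hc0 j d with h1 | h1
      · exact h1
      · exact (h.ww (.d3 i a) (.d3 j d) c0 (d3_adj i j a d (Ne.symm hd) (Or.inr (Or.inl hlt))) hw h1).elim
    have := (h.cnt (fun i => Vtx.d3 i c) (d3_inj c) univ (v := .d3 0 b) (hall b hba 0)
      (fun i _ => hall c hca i) (fun i _ => d3_adj 0 i b c hbc (Or.inr (Or.inl (by decide))))
      (fun i _ j _ => d3_nadj i j c)).1
    exact absurd this (by decide)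
  have hblack : ∀ i c, i ∉ w3 w c → w (.d3 i c) = none := by
    intro i c hi
    by_contra hne
    exact hi (by simpa [w3] using hne)
  have h2 : ∀ a b, a ≠ b → 2 ≤ (w3 w b).card := by
    intro a b hab
    have h0 : w (.d3 0 a) = none := hblack 0 a (fun hi => absurd (hleaf a 0 hi) (by decide))
    have := (h.cnt (fun i => Vtx.d3 i b) (d3_inj b) (w3 w b)ᶜ (v := .d3 0 a) h0
      (fun i hi => hblack i b (mem_compl.1 hi))
      (fun i _ => d3_adj 0 i a b hab (Or.inr (Or.inl (by decide))))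
      (fun i _ j _ => d3_nadj i j b)).1
    rw [card_compl_6] at this
    omega
  obtain ⟨i, hi0, hi1⟩ := two_of_three (w3 w 0) (w3 w 1) (h2 1 0 (by decide)) (h2 0 1 (by decide))
    (hleaf 0) (hleaf 1)
  exact h.ww (.d3 i 0) (.d3 i 1) c0 (d3_adj i i 0 1 (by decide) (Or.inl rfl)) (hsome i 0 hi0)
    (hsome i 1 hi1)

/-- if a black vertex is complete to `D₂`, the white vertices of `D₂` do not all lie in one class -/
theorem Col.d2_two (h : Col w p) {v : Vtx} (hv : w v = none) (hvD : ∀ i c, adjB v (.d2 i c) = true)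
    (c0 : Fin 11) (hc0 : ∀ i c, w (.d2 i c) = none ∨ w (.d2 i c) = some c0) : False := by
  have hsome : ∀ i c, i ∈ w2 w c → w (.d2 i c) = some c0 := by
    intro i c hi
    have : w (.d2 i c) ≠ none := by simpa [w2] using hi
    exact (hc0 i c).resolve_left this
  have hblack : ∀ i c, i ∉ w2 w c → w (.d2 i c) = none := by
    intro i c hi
    by_contra hne
    exact hi (by simpa [w2] using hne)
  have hcnt : ∀ c, (w2 w c)ᶜ.card ≤ 4 ∧ (4 ≤ (w2 w c)ᶜ.card → p v = 2 ∧
      (w2 w c)ᶜ.image (fun i => p (.d2 i c)) = {0, 1, 2, 3}) := fun c =>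
    h.cnt (fun i => Vtx.d2 i c) (d2_inj c) (w2 w c)ᶜ hv (fun i hi => hblack i c (mem_compl.1 hi))
      (fun i _ => hvD i c) (fun i _ j _ => d2_nadj i j c)
  have hne : ∀ c, 1 ≤ (w2 w c).card := by
    intro c
    have := (hcnt c).1
    rw [card_compl_5] at this
    omega
  have hleaf : ∀ a, ∀ i ∈ w2 w a, 2 ≤ i.1 := by
    intro a i hi
    by_contra hlt
    push Not at hlt
    obtain ⟨j, hj⟩ := card_pos.1 (hne (1 - a))
    have hab : a ≠ 1 - a := fin2_ne a
    exact h.ww (.d2 i a) (.d2 j (1 - a)) c0 (d2_adj i j a (1 - a) hab (Or.inr (Or.inl hlt)))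
      (hsome i a hi) (hsome j _ hj)
  have hdisj : Disjoint (w2 w 0) (w2 w 1) := by
    refine disjoint_left.2 fun i hi hj => ?_
    exact h.ww (.d2 i 0) (.d2 i 1) c0 (d2_adj i i 0 1 (by decide) (Or.inl rfl)) (hsome i 0 hi)
      (hsome i 1 hj)
  have hsum : (w2 w 0).card + (w2 w 1).card ≤ 3 := by
    rw [← card_union_of_disjoint hdisj]
    have h2 : w2 w 0 ∪ w2 w 1 ⊆ univ.filter (fun i : Fin 5 => 2 ≤ i.1) := by
      intro i hi
      rcases mem_union.1 hi with h | h
      · simpa using hleaf 0 i h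
      · simpa using hleaf 1 i h
    exact (card_le_card h2).trans (by decide)
  -- a color `a` with exactly one white vertex
  obtain ⟨a, ha1, ha2⟩ : ∃ a : Fin 2, (w2 w a).card = 1 ∧ (w2 w (1 - a)).card ≤ 2 := by
    have h0 := hne 0
    have h1 := hne 1
    by_cases e : (w2 w 0).card = 1
    · exact ⟨0, e, by show (w2 w 1).card ≤ 2; omega⟩
    · exact ⟨1, by omega, by show (w2 w 0).card ≤ 2; omega⟩
  have hab : a ≠ 1 - a := fin2_ne a
  set b : Fin 2 := 1 - a with hb
  have hca : (w2 w a)ᶜ.card = 4 := by rw [card_compl_5]; omega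
  have hcb : 3 ≤ (w2 w b)ᶜ.card := by rw [card_compl_5]; omega
  obtain ⟨hv2, himg⟩ := (hcnt a).2 hca.ge
  have h3 : 3 ∈ (w2 w a)ᶜ.image (fun i => p (.d2 i a)) := by rw [himg]; simp
  obtain ⟨i, hi, hi3⟩ := mem_image.1 h3
  have hiw := hblack i a (mem_compl.1 hi)
  by_cases hcore : i.1 < 2
  · have := (h.cnt2 (fun i => Vtx.d2 i b) (d2_inj b) (w2 w b)ᶜ (v := v) (x := .d2 i a) hv hiw hv2 hi3
      (fun j hj => hblack j b (mem_compl.1 hj)) (fun j _ => hvD j b)
      (fun j _ => d2_adj i j a b hab (Or.inr (Or.inl hcore))) (fun j _ k _ => d2_nadj j k b)).1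
    omega
  · have hbl : ∀ j ∈ ({0, 1} : Finset (Fin 5)), w (.d2 j b) = none := by
      intro j hj
      refine hblack j b fun hj' => ?_
      have h1 := hleaf b j hj'
      have h2 := (by decide : ∀ j ∈ ({0, 1} : Finset (Fin 5)), j.1 < 2) j hj
      omega
    have hlt : ∀ j ∈ ({0, 1} : Finset (Fin 5)), j.1 < 2 := by decide
    obtain ⟨j, hj, hj3⟩ := (h.cnt2 (fun i => Vtx.d2 i b) (d2_inj b) {0, 1} (v := v) (x := .d2 i a)
      hv hiw hv2 hi3 hbl (fun j _ => hvD j b)
      (fun j hj => d2_adj i j a b hab (Or.inr (Or.inr (hlt j hj)))) (fun j _ k _ => d2_nadj j k b)).2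
      (by decide)
    have := (h.cnt2 (fun i => Vtx.d2 i a) (d2_inj a) (w2 w a)ᶜ (v := v) (x := .d2 j b) hv (hbl j hj)
      hv2 hj3 (fun k hk => hblack k a (mem_compl.1 hk)) (fun k _ => hvD k a)
      (fun k _ => d2_adj j k b a hab.symm (Or.inr (Or.inl (hlt j hj))))
      (fun k _ l _ => d2_nadj k l a)).1
    omega

/-- if a black vertex is complete to `D₃`, the white vertices of `D₃` do not all lie in two
classes -/
theorem Col.d3_three (h : Col w p) {v : Vtx} (hv : w v = none)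
    (hvD : ∀ i c, adjB v (.d3 i c) = true) (c0 c1 : Fin 11)
    (hc : ∀ i c, w (.d3 i c) = none ∨ w (.d3 i c) = some c0 ∨ w (.d3 i c) = some c1) : False := by
  have hsome : ∀ i c, i ∈ w3 w c → w (.d3 i c) = some c0 ∨ w (.d3 i c) = some c1 := by
    intro i c hi
    have : w (.d3 i c) ≠ none := by simpa [w3] using hi
    exact (hc i c).resolve_left this
  have hblack : ∀ i c, i ∉ w3 w c → w (.d3 i c) = none := by
    intro i c hi
    by_contra hne
    exact hi (by simpa [w3] using hne)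
  have hcnt : ∀ c, (w3 w c)ᶜ.card ≤ 4 ∧ (4 ≤ (w3 w c)ᶜ.card → p v = 2 ∧
      (w3 w c)ᶜ.image (fun i => p (.d3 i c)) = {0, 1, 2, 3}) := fun c =>
    h.cnt (fun i => Vtx.d3 i c) (d3_inj c) (w3 w c)ᶜ hv (fun i hi => hblack i c (mem_compl.1 hi))
      (fun i _ => hvD i c) (fun i _ j _ => d3_nadj i j c)
  have h2 : ∀ c, 2 ≤ (w3 w c).card := by
    intro c
    have := (hcnt c).1
    rw [card_compl_6] at this
    omega
  -- main claim: with roles of the two classes
  have hleaf : ∀ a, ∀ i ∈ w3 w a, 3 ≤ i.1 := by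
    intro a i hi
    by_contra hlt
    push Not at hlt
    have key : ∀ e e' : Fin 11, w (.d3 i a) = some e →
        (∀ i c, i ∈ w3 w c → w (.d3 i c) = some e ∨ w (.d3 i c) = some e') → False := by
      intro e e' he hee
      obtain ⟨b, c, hba, hca, hbc⟩ := exists_other a
      have hcl : ∀ d, d ≠ a → ∀ j ∈ w3 w d, w (.d3 j d) = some e' := by
        intro d hd j hj
        refine (hee j d hj).resolve_left fun h1 => ?_
        exact h.ww (.d3 i a) (.d3 j d) e (d3_adj i j a d (Ne.symm hd) (Or.inr (Or.inl hlt))) he h1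
      have hlf : ∀ d d', d ≠ a → d' ≠ a → d ≠ d' → ∀ j ∈ w3 w d, 3 ≤ j.1 := by
        intro d d' hd hd' hdd j hj
        by_contra hlt'
        push Not at hlt'
        obtain ⟨k, hk⟩ := card_pos.1 (lt_of_lt_of_le (by norm_num) (h2 d'))
        exact h.ww (.d3 j d) (.d3 k d') e' (d3_adj j k d d' hdd (Or.inr (Or.inl hlt')))
          (hcl d hd j hj) (hcl d' hd' k hk)
      obtain ⟨j, hj, hj'⟩ := two_of_three (w3 w b) (w3 w c) (h2 b) (h2 c) (hlf b c hba hca hbc)
        (hlf c b hca hba hbc.symm)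
      exact h.ww (.d3 j b) (.d3 j c) e' (d3_adj j j b c hbc (Or.inl rfl)) (hcl b hba j hj)
        (hcl c hca j hj')
    rcases hsome i a hi with he | he
    · exact key c0 c1 he hsome
    · exact key c1 c0 he (fun i c hi => (hsome i c hi).symm)
  have hnot3 : (w3 w 0).card ≤ 2 := by
    by_contra hlt
    push Not at hlt
    have hall : w3 w 0 = univ.filter (fun i : Fin 6 => 3 ≤ i.1) := by
      refine eq_of_subset_of_card_le (fun i hi => by simpa using hleaf 0 i hi) ?_
      exact le_trans (by decide) hlt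
    obtain ⟨j, hj1, hj2⟩ := two_of_three (w3 w 1) (w3 w 2) (h2 1) (h2 2) (hleaf 1) (hleaf 2)
    have hj0 : j ∈ w3 w 0 := by rw [hall]; simpa using hleaf 1 j hj1
    have a01 := d3_adj j j 0 1 (by decide) (Or.inl rfl)
    have a02 := d3_adj j j 0 2 (by decide) (Or.inl rfl)
    have a12 := d3_adj j j 1 2 (by decide) (Or.inl rfl)
    rcases hsome j 0 hj0 with e0 | e0 <;> rcases hsome j 1 hj1 with e1 | e1 <;>
      rcases hsome j 2 hj2 with e2 | e2 <;>
      first
      | exact h.ww _ _ _ a01 e0 e1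
      | exact h.ww _ _ _ a02 e0 e2
      | exact h.ww _ _ _ a12 e1 e2
  have hc0 : 4 ≤ (w3 w 0)ᶜ.card := by rw [card_compl_6]; omega
  obtain ⟨hv2, himg⟩ := (hcnt 0).2 hc0
  have h3 : 3 ∈ (w3 w 0)ᶜ.image (fun i => p (.d3 i 0)) := by rw [himg]; simp
  obtain ⟨i, hi, hi3⟩ := mem_image.1 h3
  have hiw := hblack i 0 (mem_compl.1 hi)
  have hbl : ∀ j ∈ ({0, 1, 2} : Finset (Fin 6)), w (.d3 j 1) = none := by
    intro j hj
    refine hblack j 1 fun hj' => ?_
    have h1 := hleaf 1 j hj'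
    have h2 := (by decide : ∀ j ∈ ({0, 1, 2} : Finset (Fin 6)), j.1 < 3) j hj
    omega
  have hlt : ∀ j ∈ ({0, 1, 2} : Finset (Fin 6)), j.1 < 3 := by decide
  have := (h.cnt2 (fun i => Vtx.d3 i 1) (d3_inj 1) {0, 1, 2} (v := v) (x := .d3 i 0)
    hv hiw hv2 hi3 hbl (fun j _ => hvD j 1)
    (fun j hj => d3_adj i j 0 1 (by decide) (Or.inr (Or.inr (hlt j hj)))) (fun j _ k _ => d3_nadj j k 1)).1
  exact absurd this (by decide)

end Pool.Agent.CrgTail
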