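import Pool.Agent.CrgTail.NoHost

set_option autoImplicit false

namespace Pool.Agent.CrgTail

open Finset

variable {w : Vtx → Option (Fin 11)} {p : Vtx → ℕ}

/-- block of a vertex -/
def ix : Vtx → ℕ
  | .part i _ => i
  | .d2 _ _ => 7
  | .d3 _ _ => 8
  | _ => 9

theorem ix_adj : ∀ v v' : Vtx, ix v < 9 → ix v' < 9 → ix v ≠ ix v' → adjB v v' = true := by
  decide +kernel

theorem part_inj (i : Fin 7) : Function.Injective (fun a => Vtx.part i a) := fun a b h => by
  simpa using h

theorem part_adj (i j : Fin 7) (hij : i ≠ j) (a : Fin (sz i)) (b : Fin (sz j)) :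
    adjB (.part i a) (.part j b) = true := by simp [adjB, hij]

theorem part_nadj (i : Fin 7) (a b : Fin (sz i)) : adjB (.part i a) (.part i b) = false := by
  simp [adjB]

theorem card_nu : ∀ i : Fin 7, 4 ≤ (univ.filter fun a : Fin (sz i) => nu i a = true).card := by
  decide +kernel

theorem card_ny : ∀ i : Fin 7, 3 ≤ i.1 → 4 ≤ (univ.filter fun a : Fin (sz i) => ny i a = true).card := by
  decide +kernel

theorem card_nz : ∀ i : Fin 7, i.1 ≠ 0 → 2 ≤ (univ.filter fun a : Fin (sz i) => nz i a = true).card := by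
  decide +kernel

theorem Col.two_zero (h : Col w p) {i j : Fin 7} (hij : i ≠ j)
    (hi : ∀ a : Fin (sz i), nu i a = true → w (.part i a) = none)
    (hj : ∀ a : Fin (sz j), nu j a = true → w (.part j a) = none) : False := by
  have key : ∀ a : Fin (sz i), nu i a = true → p (.part i a) = 2 := by
    intro a ha
    exact ((h.cnt (fun b => Vtx.part j b) (part_inj j) (univ.filter fun a : Fin (sz j) => nu j a = true)
      (v := .part i a) (hi a ha) (fun b hb => hj b (by simpa using hb))
      (fun b _ => part_adj i j hij a b) (fun b _ b' _ => part_nadj j b b')).2 (card_nu j)).1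
  have h2 := card_nu i
  obtain ⟨a, ha, b, hb, hab⟩ := one_lt_card.1 (lt_of_lt_of_le (by norm_num) h2)
  have ha' : nu i a = true := by simpa using ha
  have hb' : nu i b = true := by simpa using hb
  exact h.bn (.part i a) (.part i b) (fun e => hab (part_inj i e)) (part_nadj i a b) (hi a ha') (hi b hb')
    (by rw [key a ha', key b hb'])

/-- white classes meeting the vertices of block `b` satisfying `Q` -/
def Ws (w : Vtx → Option (Fin 11)) (Q : Vtx → Bool) (b : Fin 9) : Finset (Fin 11) :=
  univ.filter fun c => ∃ v, ix v = b.1 ∧ Q v = true ∧ w v = some c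

theorem mem_Ws {Q : Vtx → Bool} {b : Fin 9} {c : Fin 11} :
    c ∈ Ws w Q b ↔ ∃ v, ix v = b.1 ∧ Q v = true ∧ w v = some c := by simp [Ws]

theorem Col.sum_Ws (h : Col w p) (Q : Vtx → Bool) :
    ∑ b, (Ws w Q b).card = (univ.biUnion (Ws w Q)).card := by
  rw [card_biUnion]
  intro b _ b' _ hbb
  refine disjoint_left.2 fun c hc hc' => ?_
  obtain ⟨v, hv1, -, hv3⟩ := mem_Ws.1 hc
  obtain ⟨v', hv1', -, hv3'⟩ := mem_Ws.1 hc'
  refine h.ww v v' c (ix_adj v v' ?_ ?_ ?_) hv3 hv3'
  · rw [hv1]; exact b.2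
  · rw [hv1']; exact b'.2
  · rw [hv1, hv1']; exact fun e => hbb (Fin.ext e)

/-- if at most one class is used by `D₂`, all its whites are in one class -/
theorem d2_class {Q : Vtx → Bool} (hQ : ∀ i c, Q (.d2 i c) = true) (hcard : (Ws w Q 7).card ≤ 1) :
    ∃ c0, ∀ i c, w (.d2 i c) = none ∨ w (.d2 i c) = some c0 := by
  rcases Finset.card_le_one_iff_subset_singleton.1 hcard with ⟨c0, hc0⟩
  refine ⟨c0, fun i c => ?_⟩
  cases hw : w (.d2 i c) with
  | none => exact Or.inl rfl
  | some e =>
    have : e ∈ Ws w Q 7 := mem_Ws.2 ⟨_, rfl, hQ i c, hw⟩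
    rw [mem_singleton.1 (hc0 this)]; exact Or.inr rfl

theorem d3_class {Q : Vtx → Bool} (hQ : ∀ i c, Q (.d3 i c) = true) (hcard : (Ws w Q 8).card ≤ 1) :
    ∃ c0, ∀ i c, w (.d3 i c) = none ∨ w (.d3 i c) = some c0 := by
  rcases Finset.card_le_one_iff_subset_singleton.1 hcard with ⟨c0, hc0⟩
  refine ⟨c0, fun i c => ?_⟩
  cases hw : w (.d3 i c) with
  | none => exact Or.inl rfl
  | some e =>
    have : e ∈ Ws w Q 8 := mem_Ws.2 ⟨_, rfl, hQ i c, hw⟩
    rw [mem_singleton.1 (hc0 this)]; exact Or.inr rfl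

theorem d3_class2 {Q : Vtx → Bool} (hQ : ∀ i c, Q (.d3 i c) = true) (hcard : (Ws w Q 8).card ≤ 2) :
    ∃ c0 c1, ∀ i c, w (.d3 i c) = none ∨ w (.d3 i c) = some c0 ∨ w (.d3 i c) = some c1 := by
  obtain ⟨c0, c1, hsub⟩ : ∃ c0 c1, Ws w Q 8 ⊆ {c0, c1} := by
    rcases Nat.lt_or_ge (Ws w Q 8).card 2 with h | h
    · rcases Finset.card_le_one_iff_subset_singleton.1 (Nat.le_of_lt_succ h) with ⟨c0, hc0⟩
      exact ⟨c0, c0, by simpa using hc0⟩
    · obtain ⟨c0, c1, -, he⟩ := card_eq_two.1 (le_antisymm hcard h)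
      exact ⟨c0, c1, he.le⟩
  refine ⟨c0, c1, fun i c => ?_⟩
  cases hw : w (.d3 i c) with
  | none => exact Or.inl rfl
  | some e =>
    have : e ∈ Ws w Q 8 := mem_Ws.2 ⟨_, rfl, hQ i c, hw⟩
    rcases mem_insert.1 (hsub this) with h | h
    · rw [h]; exact Or.inr (Or.inl rfl)
    · rw [mem_singleton.1 h]; exact Or.inr (Or.inr rfl)

theorem adj_d2 : ∀ v : Vtx, isD2 v = false → ∀ i c, adjB v (.d2 i c) = true := by decide +kernel

theorem adj_d3 : ∀ v : Vtx, isD3 v = false → ∀ i c, adjB v (.d3 i c) = true := by decide +kernel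

theorem Col.d2_ge (h : Col w p) {Q : Vtx → Bool} (hQ : ∀ i c, Q (.d2 i c) = true) {v : Vtx}
    (hv : w v = none) (hvD : isD2 v = false) : 2 ≤ (Ws w Q 7).card := by
  by_contra hlt
  push Not at hlt
  obtain ⟨c0, hc0⟩ := d2_class hQ (Nat.le_of_lt_succ hlt)
  exact h.d2_two hv (adj_d2 v hvD) c0 hc0

theorem Col.d3_ge (h : Col w p) {Q : Vtx → Bool} (hQ : ∀ i c, Q (.d3 i c) = true) {v : Vtx}
    (hv : w v = none) (hvD : isD3 v = false) : 3 ≤ (Ws w Q 8).card := by
  by_contra hlt
  push Not at hlt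
  obtain ⟨c0, c1, hc⟩ := d3_class2 hQ (Nat.le_of_lt_succ hlt)
  exact h.d3_three hv (adj_d3 v hvD) c0 c1 hc

theorem Col.d3_ge2 (h : Col w p) {Q : Vtx → Bool} (hQ : ∀ i c, Q (.d3 i c) = true) :
    2 ≤ (Ws w Q 8).card := by
  by_contra hlt
  push Not at hlt
  obtain ⟨c0, hc⟩ := d3_class hQ (Nat.le_of_lt_succ hlt)
  exact h.d3_white c0 hc

theorem Col.d2_ge1 (h : Col w p) {Q : Vtx → Bool} (hQ : ∀ i c, Q (.d2 i c) = true) :
    1 ≤ (Ws w Q 7).card := by
  obtain ⟨i, c, hw⟩ := h.d2_white
  obtain ⟨e, he⟩ := Option.ne_none_iff_exists'.1 hw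
  exact card_pos.2 ⟨e, mem_Ws.2 ⟨_, rfl, hQ i c, he⟩⟩

/-- a part without white `u`-neighbours -/
theorem Ws_zero {Q : Vtx → Bool} {i : Fin 7} (hQ : ∀ a : Fin (sz i), nu i a = true → Q (.part i a) = true)
    (h0 : Ws w Q (i.castLE (by norm_num)) = ∅) :
    ∀ a : Fin (sz i), nu i a = true → w (.part i a) = none := by
  intro a ha
  cases hw : w (.part i a) with
  | none => rfl
  | some e =>
    have : e ∈ Ws w Q (i.castLE (by norm_num)) := mem_Ws.2 ⟨_, rfl, hQ a ha, hw⟩
    rw [h0] at this
    exact absurd this (by simp)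

/-- either all parts are met by whites or exactly one is not -/
theorem Col.parts (h : Col w p) {Q : Vtx → Bool}
    (hQ : ∀ i, ∀ a : Fin (sz i), nu i a = true → Q (.part i a) = true) :
    (∀ i : Fin 7, 1 ≤ (Ws w Q (i.castLE (by norm_num))).card) ∨
    ∃ i : Fin 7, Ws w Q (i.castLE (by norm_num)) = ∅ ∧
      ∀ j : Fin 7, j ≠ i → 1 ≤ (Ws w Q (j.castLE (by norm_num))).card := by
  by_cases hall : ∀ i : Fin 7, 1 ≤ (Ws w Q (i.castLE (by norm_num))).card
  · exact Or.inl hall
  · push Not at hall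
    obtain ⟨i, hi⟩ := hall
    have hi0 : Ws w Q (i.castLE (by norm_num)) = ∅ := card_eq_zero.1 (by omega)
    refine Or.inr ⟨i, hi0, fun j hj => ?_⟩
    by_contra hlt
    have hj0 : Ws w Q (j.castLE (by norm_num)) = ∅ := card_eq_zero.1 (by omega)
    exact h.two_zero hj.symm (Ws_zero (hQ i) hi0) (Ws_zero (hQ j) hj0)

theorem sum9 (n : Fin 9 → ℕ) :
    ∑ b, n b = ∑ i : Fin 7, n (i.castLE (by norm_num)) + n 7 + n 8 := by
  rw [Fin.sum_univ_castSucc, Fin.sum_univ_castSucc]
  rfl

theorem sum7_ge {n : Fin 7 → ℕ} (h : ∀ i, 1 ≤ n i) : 7 ≤ ∑ i, n i := by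
  calc 7 = ∑ _i : Fin 7, 1 := by simp
    _ ≤ _ := sum_le_sum fun i _ => h i

theorem sum7_ge' {n : Fin 7 → ℕ} (i : Fin 7) (h : ∀ j, j ≠ i → 1 ≤ n j) : 6 ≤ ∑ i, n i := by
  have h1 : ∑ j ∈ univ.erase i, n j ≤ ∑ i, n i := sum_le_sum_of_subset (erase_subset _ _)
  have h2 : ∑ j ∈ univ.erase i, 1 ≤ ∑ j ∈ univ.erase i, n j :=
    sum_le_sum fun j hj => h j (ne_of_mem_erase hj)
  have h3 : ∑ j ∈ (univ : Finset (Fin 7)).erase i, 1 = 6 := by simp
  omega

theorem nu_ex : ∀ i : Fin 7, ∃ a : Fin (sz i), nu i a = true := by decide +kernel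

/-- `u` is black -/
theorem Col.u_black (h : Col w p) : w .u = none := by
  by_contra hu
  obtain ⟨cu, hcu⟩ := Option.ne_none_iff_exists'.1 hu
  set Q : Vtx → Bool := fun v => adjB .u v with hQ
  have hQ2 : ∀ i c, Q (.d2 i c) = true := fun _ _ => rfl
  have hQ3 : ∀ i c, Q (.d3 i c) = true := fun _ _ => rfl
  have hQp : ∀ i, ∀ a : Fin (sz i), nu i a = true → Q (.part i a) = true := fun i a ha => ha
  have hle : ∑ b, (Ws w Q b).card ≤ 10 := by
    rw [h.sum_Ws]
    have : univ.biUnion (Ws w Q) ⊆ univ.erase cu := by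
      intro c hc
      obtain ⟨b, -, hb⟩ := mem_biUnion.1 hc
      obtain ⟨v, -, hv2, hv3⟩ := mem_Ws.1 hb
      refine mem_erase.2 ⟨?_, mem_univ _⟩
      rintro rfl
      exact h.ww .u v _ hv2 hcu hv3
    exact (card_le_card this).trans (by simp)
  rw [sum9] at hle
  rcases h.parts hQp with hall | ⟨i, hi0, hi⟩
  · have h7 := sum7_ge hall
    have h8 := h.d3_ge2 hQ3
    have h9 := h.d2_ge1 hQ2
    by_cases hb : ∃ v, w v = none ∧ isD2 v = false
    · obtain ⟨v, hv, hvD⟩ := hb
      have := h.d2_ge hQ2 hv hvD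
      omega
    · push Not at hb
      -- everything outside `D₂` is white, so `D₃` uses three classes
      have hw3 : ∀ i c, w (.d3 i c) ≠ none := fun i c hn => hb (.d3 i c) hn rfl
      obtain ⟨e0, he0⟩ := Option.ne_none_iff_exists'.1 (hw3 0 0)
      obtain ⟨e1, he1⟩ := Option.ne_none_iff_exists'.1 (hw3 0 1)
      obtain ⟨e2, he2⟩ := Option.ne_none_iff_exists'.1 (hw3 0 2)
      have h01 : e0 ≠ e1 := fun e => h.ww _ _ _ (d3_adj 0 0 0 1 (by decide) (Or.inl rfl)) he0 (e ▸ he1)
      have h02 : e0 ≠ e2 := fun e => h.ww _ _ _ (d3_adj 0 0 0 2 (by decide) (Or.inl rfl)) he0 (e ▸ he2)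
      have h12 : e1 ≠ e2 := fun e => h.ww _ _ _ (d3_adj 0 0 1 2 (by decide) (Or.inl rfl)) he1 (e ▸ he2)
      have hsub : ({e0, e1, e2} : Finset (Fin 11)) ⊆ Ws w Q 8 := by
        intro c hc
        simp only [mem_insert, mem_singleton] at hc
        rcases hc with rfl | rfl | rfl
        · exact mem_Ws.2 ⟨_, rfl, hQ3 0 0, he0⟩
        · exact mem_Ws.2 ⟨_, rfl, hQ3 0 1, he1⟩
        · exact mem_Ws.2 ⟨_, rfl, hQ3 0 2, he2⟩
      have h3 := card_le_card hsub
      rw [card_eq_three.2 ⟨e0, e1, e2, h01, h02, h12, rfl⟩] at h3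
      omega
  · have h6 := sum7_ge' i hi
    obtain ⟨a, ha⟩ := nu_ex i
    have hv := Ws_zero (hQp i) hi0 a ha
    have h2 := h.d2_ge hQ2 hv rfl
    have h3 := h.d3_ge hQ3 hv rfl
    omega

/-- the structure of the white classes -/
theorem Col.struct (h : Col w p) : ∃ i0 : Fin 7, (∀ a, w (.part i0 a) = none) ∧
    (∀ j : Fin 7, j ≠ i0 → ∃ c, ∀ a, w (.part j a) = none ∨ w (.part j a) = some c) ∧
    (∀ c : Fin 11, ∃ v, ix v < 9 ∧ w v = some c) := by
  set Q : Vtx → Bool := fun _ => true with hQ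
  have hle : (univ.biUnion (Ws w Q)).card ≤ 11 := (card_le_univ _).trans (by simp)
  have hsum := h.sum_Ws Q
  rw [sum9] at hsum
  have hu := h.u_black
  have h2 := h.d2_ge (Q := Q) (fun _ _ => rfl) hu rfl
  have h3 := h.d3_ge (Q := Q) (fun _ _ => rfl) hu rfl
  rcases h.parts (Q := Q) (fun _ _ _ => rfl) with hall | ⟨i, hi0, hi⟩
  · have h7 := sum7_ge hall
    omega
  · have h6 := sum7_ge' i hi
    refine ⟨i, ?_, ?_, ?_⟩
    · intro a
      cases hw : w (.part i a) with
      | none => rfl
      | some e =>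
        have : e ∈ Ws w Q (i.castLE (by norm_num)) := mem_Ws.2 ⟨_, rfl, rfl, hw⟩
        rw [hi0] at this
        exact absurd this (by simp)
    · intro j hj
      have hcard : (Ws w Q (j.castLE (by norm_num))).card ≤ 1 := by
        by_contra hlt
        push Not at hlt
        have h61 : 5 ≤ ∑ k ∈ (univ.erase i).erase j, (Ws w Q (k.castLE (by norm_num))).card := by
          calc 5 = ∑ _k ∈ ((univ : Finset (Fin 7)).erase i).erase j, 1 := by
                rw [sum_const, card_erase_of_mem (mem_erase.2 ⟨hj, mem_univ _⟩),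
                  card_erase_of_mem (mem_univ _)]; simp
            _ ≤ _ := sum_le_sum fun k hk => hi k (ne_of_mem_erase (mem_of_mem_erase hk))
        have h62 : ∑ k : Fin 7, (Ws w Q (k.castLE (by norm_num))).card
            = (Ws w Q (i.castLE (by norm_num))).card + ((Ws w Q (j.castLE (by norm_num))).card
              + ∑ k ∈ (univ.erase i).erase j, (Ws w Q (k.castLE (by norm_num))).card) := by
          rw [← add_sum_erase univ _ (mem_univ i), ← add_sum_erase (univ.erase i) _ (mem_erase.2 ⟨hj, mem_univ _⟩)]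
        omega
      rcases Finset.card_le_one_iff_subset_singleton.1 hcard with ⟨c0, hc0⟩
      refine ⟨c0, fun a => ?_⟩
      cases hw : w (.part j a) with
      | none => exact Or.inl rfl
      | some e =>
        have : e ∈ Ws w Q (j.castLE (by norm_num)) := mem_Ws.2 ⟨_, rfl, rfl, hw⟩
        rw [mem_singleton.1 (hc0 this)]; exact Or.inr rfl
    · intro c
      have he : univ.biUnion (Ws w Q) = univ := eq_univ_of_card _ (by
        rw [Fintype.card_fin]; omega)
      have hc : c ∈ univ.biUnion (Ws w Q) := by rw [he]; exact mem_univ c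
      obtain ⟨b, -, hb⟩ := mem_biUnion.1 hc
      obtain ⟨v, hv1, -, hv3⟩ := mem_Ws.1 hb
      exact ⟨v, by rw [hv1]; exact b.2, hv3⟩

/-- `u, z, y` adjacency to `D₂`, `D₃` and the parts -/
theorem ix_cases (v : Vtx) (hv : ix v < 9) :
    (∃ i a, v = .part i a) ∨ isD2 v = true ∨ isD3 v = true := by
  cases v with
  | part i a => exact Or.inl ⟨i, a, rfl⟩
  | d2 i c => exact Or.inr (Or.inl rfl)
  | d3 i c => exact Or.inr (Or.inr rfl)
  | u => exact absurd hv (by decide)
  | z => exact absurd hv (by decide)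
  | y => exact absurd hv (by decide)

theorem zy_d : ∀ v, isD2 v = true ∨ isD3 v = true → adjB .z v = true ∧ adjB .y v = true := by
  decide +kernel

theorem card_part : ∀ i : Fin 7, i.1 ≠ 0 → 5 ≤ (univ : Finset (Fin (sz i))).card := by decide +kernel

theorem card_part4 : ∀ i : Fin 7, 4 ≤ (univ : Finset (Fin (sz i))).card := by decide +kernel

theorem nu_12 : ∀ i : Fin 7, i.1 < 3 → ∀ a : Fin (sz i), nu i a = true := by decide +kernel

theorem nz_3 : ∀ i : Fin 7, 3 ≤ i.1 → ∀ a : Fin (sz i), nz i a = true := by decide +kernel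

theorem nz_0 : ∀ a : Fin (sz 0), nz 0 a = false := by decide +kernel

theorem nz_ex : ∀ i : Fin 7, i.1 ≠ 0 → ∃ a : Fin (sz i), nz i a = true := by decide +kernel

theorem ny_ex : ∀ i : Fin 7, i.1 ≠ 0 → ∃ a : Fin (sz i), ny i a = true := by decide +kernel

theorem Col.false (h : Col w p) : False := by
  obtain ⟨i0, hi0, hj, hcov⟩ := h.struct
  have hu := h.u_black
  by_cases h0 : i0 = 0
  · subst h0
    -- part `0` is black
    have hcu := h.cnt (fun a => Vtx.part 0 a) (part_inj 0) univ (v := .u) hu (fun a _ => hi0 a)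
      (fun a _ => nu_12 0 (by decide) a) (fun a _ b _ => part_nadj 0 a b)
    obtain ⟨hu2, himg⟩ := hcu.2 (card_part4 0)
    have hz : w .z = none := by
      by_contra hne
      obtain ⟨c, hc⟩ := Option.ne_none_iff_exists'.1 hne
      obtain ⟨v, hv1, hv2⟩ := hcov c
      rcases ix_cases v hv1 with ⟨j, a, rfl⟩ | hD
      · have hj0 : j ≠ 0 := by
          rintro rfl
          rw [hi0 a] at hv2
          exact absurd hv2 (by simp)
        obtain ⟨cj, hcj⟩ := hj j hj0
        have hcc : cj = c := by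
          rcases hcj a with h1 | h1
          · rw [h1] at hv2; exact absurd hv2 (by simp)
          · rw [h1] at hv2; exact Option.some_injective _ hv2
        subst hcc
        -- two `z`-neighbours in part `j`
        obtain ⟨a1, ha1, a2, ha2, hne12⟩ := one_lt_card.1
          (lt_of_lt_of_le (by norm_num) (card_nz j (fun e => hj0 (Fin.ext e))))
        have ha1' : nz j a1 = true := by simpa using ha1
        have ha2' : nz j a2 = true := by simpa using ha2
        have hb : ∀ a : Fin (sz j), nz j a = true → w (.part j a) = none ∧ p (.part j a) = 2 := by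
          intro a ha
          have hw : w (.part j a) = none := by
            rcases hcj a with h1 | h1
            · exact h1
            · exact (h.ww .z (.part j a) cj ha hc h1).elim
          refine ⟨hw, ?_⟩
          exact ((h.cnt (fun b => Vtx.part 0 b) (part_inj 0) univ (v := .part j a) hw
            (fun b _ => hi0 b) (fun b _ => part_adj j 0 hj0 a b) (fun b _ b' _ => part_nadj 0 b b')).2
            (card_part4 0)).1
        have hb1 := hb a1 ha1'
        have hb2 := hb a2 ha2'
        exact h.bn (.part j a1) (.part j a2) (fun e => hne12 (part_inj j e)) (part_nadj j a1 a2) hb1.1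
          hb2.1 (by rw [hb1.2, hb2.2])
      · exact h.ww .z v c (zy_d v hD).1 hc hv2
    have hpz : p .z ∈ nb (p .u) := h.bb .u .z rfl hu hz
    rw [hu2, nb_two, ← himg] at hpz
    obtain ⟨a, -, ha⟩ := mem_image.1 hpz
    exact h.bn (.part 0 a) .z (by simp) (nz_0 a) (hi0 a) hz ha
  · have hi00 : i0.1 ≠ 0 := fun e => h0 (Fin.ext e)
    -- the other parts are white
    have hwhite : ∀ j, j ≠ i0 → ∃ c, ∀ a, w (.part j a) = some c := by
      intro j hji
      obtain ⟨c, hc⟩ := hj j hji
      refine ⟨c, fun a => (hc a).resolve_left fun hb => ?_⟩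
      have := (h.cnt (fun b => Vtx.part i0 b) (part_inj i0) univ (v := .part j a) hb
        (fun b _ => hi0 b) (fun b _ => part_adj j i0 hji a b) (fun b _ b' _ => part_nadj i0 b b')).1
      have := card_part i0 hi00
      omega
    have hi3 : 3 ≤ i0.1 := by
      by_contra hlt
      push Not at hlt
      have := (h.cnt (fun b => Vtx.part i0 b) (part_inj i0) univ (v := .u) hu
        (fun b _ => hi0 b) (fun b _ => nu_12 i0 hlt b) (fun b _ b' _ => part_nadj i0 b b')).1
      have := card_part i0 hi00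
      omega
    have hu2 : p .u = 2 := ((h.cnt (fun b => Vtx.part i0 b) (part_inj i0)
      (univ.filter fun a : Fin (sz i0) => nu i0 a = true) (v := .u) hu
      (fun b _ => hi0 b) (fun b hb => (by simpa using hb : nu i0 b = true)) (fun b _ b' _ => part_nadj i0 b b')).2
      (card_nu i0)).1
    obtain ⟨c0, hc0⟩ := hwhite 0 (Ne.symm h0)
    have hz : w .z = some c0 := by
      cases hwz : w .z with
      | none =>
        have := (h.cnt (fun b => Vtx.part i0 b) (part_inj i0) univ (v := .z) hwz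
          (fun b _ => hi0 b) (fun b _ => nz_3 i0 hi3 b) (fun b _ b' _ => part_nadj i0 b b')).1
        have := card_part i0 hi00
        omega
      | some c =>
        obtain ⟨v, hv1, hv2⟩ := hcov c
        rcases ix_cases v hv1 with ⟨j, a, rfl⟩ | hD
        · by_cases hji : j = i0
          · subst hji; rw [hi0 a] at hv2; exact absurd hv2 (by simp)
          obtain ⟨cj, hcj⟩ := hwhite j hji
          rw [hcj a] at hv2
          obtain rfl := Option.some_injective _ hv2
          by_cases hj0 : j = 0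
          · subst hj0; rw [← hc0 a, hcj a]
          · obtain ⟨b, hb⟩ := nz_ex j (fun e => hj0 (Fin.ext e))
            exact (h.ww .z (.part j b) cj hb hwz (hcj b)).elim
        · exact (h.ww .z v c (zy_d v hD).1 hwz hv2).elim
    have hy : w .y = some c0 := by
      cases hwy : w .y with
      | none =>
        have hy2 : p .y = 2 := ((h.cnt (fun b => Vtx.part i0 b) (part_inj i0)
          (univ.filter fun a : Fin (sz i0) => ny i0 a = true) (v := .y) hwy
          (fun b _ => hi0 b) (fun b hb => (by simpa using hb : ny i0 b = true)) (fun b _ b' _ => part_nadj i0 b b')).2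
          (card_ny i0 hi3)).1
        exact (h.bn .u .y (by decide) rfl hu hwy (by rw [hu2, hy2])).elim
      | some c =>
        obtain ⟨v, hv1, hv2⟩ := hcov c
        rcases ix_cases v hv1 with ⟨j, a, rfl⟩ | hD
        · by_cases hji : j = i0
          · subst hji; rw [hi0 a] at hv2; exact absurd hv2 (by simp)
          obtain ⟨cj, hcj⟩ := hwhite j hji
          rw [hcj a] at hv2
          obtain rfl := Option.some_injective _ hv2
          by_cases hj0 : j = 0
          · subst hj0; rw [← hc0 a, hcj a]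
          · obtain ⟨b, hb⟩ := ny_ex j (fun e => hj0 (Fin.ext e))
            exact (h.ww .y (.part j b) cj hb hwy (hcj b)).elim
        · exact (h.ww .y v c (zy_d v hD).2 hwy hv2).elim
    exact h.ww .z .y c0 rfl hz hy

/-- `H` is not hosted by 11 whites and the tail -/
theorem not_hosts_tail : ¬ Hosts 11 Tail := by
  rintro ⟨φ, hφ⟩
  have hφ' : ∀ a b, adjB a b = true → Ok Tail true (φ a) (φ b) := by
    intro a b hab
    have hne : a ≠ b := by rintro rfl; rw [adjB_self] at hab; exact absurd hab (by decide)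
    have := hφ a b hne
    rwa [hab] at this
  have hw : ∀ v i, (match φ v with | .inl i => some i | .inr _ => none) = some i → φ v = .inl i := by
    intro v i
    cases φ v <;> simp
  have hb : ∀ v, (match φ v with | .inl i => some i | .inr _ => none) = none →
      φ v = .inr (match φ v with | .inl _ => 0 | .inr n => n) := by
    intro v
    cases φ v <;> simp
  have h : Col (fun v => match φ v with | .inl i => some i | .inr _ => none)
      (fun v => match φ v with | .inl _ => 0 | .inr n => n) := by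
    refine ⟨?_, ?_, ?_⟩
    · intro a b i hab ha hb'
      have h1 := hw a i ha
      have h2 := hw b i hb'
      have := hφ' a b hab
      rw [h1, h2] at this
      exact this rfl
    · intro a b hab ha hb'
      have h1 := hb a ha
      have h2 := hb b hb'
      have := hφ' a b hab
      rw [h1, h2] at this
      exact mem_nb this
    · intro a b hne hab ha hb' e
      have h1 := hb a ha
      have h2 := hb b hb'
      have := hφ a b hne
      rw [hab, h1, h2] at this
      exact this e
  exact h.false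

end Pool.Agent.CrgTail
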