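import Mathlib

set_option autoImplicit false

/-!
# Graphs of maximum degree three with at most one vertex of degree three: the spectral radius is
less than `√5`
-/

namespace Pool.Agent.CrgTail

open Finset

section
open Classical

variable {B : Type}

/-- twice the sum of `x i * x j` over the edges inside `S` -/
noncomputable def En (G : SimpleGraph B) (S : Finset B) (x : B → ℝ) : ℝ :=
  ∑ i ∈ S, ∑ j ∈ S, if G.Adj i j then x i * x j else 0

/-- degree inside `S` -/
noncomputable def dg (G : SimpleGraph B) (S : Finset B) (v : B) : ℕ := (S.filter (G.Adj v)).card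

/-- `√5 ∑ x² - En` -/
noncomputable def Rf (G : SimpleGraph B) (S : Finset B) (x : B → ℝ) : ℝ :=
  √5 * ∑ i ∈ S, x i ^ 2 - En G S x

theorem sqrt5_sq : √5 * √5 = (5 : ℝ) := Real.mul_self_sqrt (by norm_num)

theorem sqrt5_gt : (2.236 : ℝ) < √5 := by
  rw [Real.lt_sqrt (by norm_num)]; norm_num

theorem sqrt5_lt : √5 < (2.237 : ℝ) := by
  rw [Real.sqrt_lt' (by norm_num)]; norm_num

theorem En_insert (G : SimpleGraph B) {S : Finset B} {a : B} (ha : a ∉ S) (x : B → ℝ) :
    En G (insert a S) x = En G S x + 2 * x a * ∑ j ∈ S.filter (G.Adj a), x j := by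
  unfold En
  rw [sum_insert ha, sum_insert ha]
  rw [if_neg (SimpleGraph.irrefl _)]
  have h1 : ∀ i ∈ S, (∑ j ∈ insert a S, if G.Adj i j then x i * x j else 0)
      = (if G.Adj i a then x i * x a else 0) + ∑ j ∈ S, if G.Adj i j then x i * x j else 0 :=
    fun i _ => by rw [sum_insert ha]
  rw [sum_congr rfl h1, sum_add_distrib]
  have h2 : ∑ i ∈ S, (if G.Adj i a then x i * x a else 0) = x a * ∑ j ∈ S.filter (G.Adj a), x j := by
    rw [sum_filter, mul_sum]
    refine sum_congr rfl fun i _ => ?_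
    by_cases h : G.Adj a i
    · rw [if_pos h.symm, if_pos h]; ring
    · rw [if_neg (fun h' => h h'.symm), if_neg h]; ring
  have h3 : ∑ j ∈ S, (if G.Adj a j then x a * x j else 0) = x a * ∑ j ∈ S.filter (G.Adj a), x j := by
    rw [sum_filter, mul_sum]
    refine sum_congr rfl fun i _ => ?_
    split_ifs <;> ring
  rw [h2, h3]; ring

theorem Rf_insert (G : SimpleGraph B) {S : Finset B} {a : B} (ha : a ∉ S) (x : B → ℝ) :
    Rf G (insert a S) x = Rf G S x + √5 * x a ^ 2 - 2 * x a * ∑ j ∈ S.filter (G.Adj a), x j := by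
  unfold Rf
  rw [En_insert G ha, sum_insert ha]; ring

theorem Rf_insert' (G : SimpleGraph B) {S T : Finset B} {a : B} (ha : a ∉ S)
    (hT : ∀ i, i ∈ T ↔ i = a ∨ i ∈ S) (x : B → ℝ) :
    Rf G T x = Rf G S x + √5 * x a ^ 2 - 2 * x a * ∑ j ∈ S.filter (G.Adj a), x j := by
  obtain rfl : T = insert a S := by ext i; rw [hT, mem_insert]
  exact Rf_insert G ha x

theorem En_le (G : SimpleGraph B) (S : Finset B) (x : B → ℝ) :
    En G S x ≤ ∑ i ∈ S, (dg G S i : ℝ) * x i ^ 2 := by
  have h1 : En G S x ≤ ∑ i ∈ S, ∑ j ∈ S, if G.Adj i j then (x i ^ 2 + x j ^ 2) / 2 else 0 := by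
    refine sum_le_sum fun i _ => sum_le_sum fun j _ => ?_
    split_ifs
    · nlinarith [sq_nonneg (x i - x j)]
    · exact le_rfl
  have h2 : ∀ i ∈ S, (∑ j ∈ S, if G.Adj i j then x i ^ 2 / 2 else 0) = (dg G S i : ℝ) * x i ^ 2 / 2 := by
    intro i _
    rw [← sum_filter, sum_const, nsmul_eq_mul]
    unfold dg; ring
  have h3 : (∑ i ∈ S, ∑ j ∈ S, if G.Adj i j then x i ^ 2 / 2 else 0)
      = ∑ i ∈ S, (dg G S i : ℝ) * x i ^ 2 / 2 := sum_congr rfl h2
  have h4 : (∑ i ∈ S, ∑ j ∈ S, if G.Adj i j then x j ^ 2 / 2 else 0)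
      = ∑ i ∈ S, (dg G S i : ℝ) * x i ^ 2 / 2 := by
    rw [sum_comm, ← h3]
    refine sum_congr rfl fun i _ => sum_congr rfl fun j _ => ?_
    by_cases h : G.Adj i j
    · rw [if_pos h, if_pos h.symm]
    · rw [if_neg h, if_neg (fun h' => h h'.symm)]
  have h5 : (∑ i ∈ S, ∑ j ∈ S, if G.Adj i j then (x i ^ 2 + x j ^ 2) / 2 else 0)
      = (∑ i ∈ S, ∑ j ∈ S, if G.Adj i j then x i ^ 2 / 2 else 0)
        + ∑ i ∈ S, ∑ j ∈ S, if G.Adj i j then x j ^ 2 / 2 else 0 := by
    rw [← sum_add_distrib]
    refine sum_congr rfl fun i _ => ?_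
    rw [← sum_add_distrib]
    refine sum_congr rfl fun j _ => ?_
    split_ifs <;> ring
  rw [h5, h3, h4, ← sum_add_distrib] at h1
  refine h1.trans (le_of_eq (sum_congr rfl fun i _ => by ring))

theorem dg_mono (G : SimpleGraph B) {S T : Finset B} (h : S ⊆ T) (v : B) : dg G S v ≤ dg G T v :=
  card_le_card (filter_subset_filter _ h)

theorem dg_erase (G : SimpleGraph B) {S : Finset B} {a v : B} (ha : a ∈ S) (h : G.Adj v a) :
    dg G (S.erase a) v + 1 = dg G S v := by
  unfold dg
  rw [filter_erase, card_erase_of_mem (mem_filter.2 ⟨ha, h⟩)]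
  have : 0 < (S.filter (G.Adj v)).card := card_pos.2 ⟨a, mem_filter.2 ⟨ha, h⟩⟩
  omega

/-- lower bound when all degrees are at most two and those in `T` at most one -/
theorem Rf_ge (G : SimpleGraph B) {S T : Finset B} (hT : T ⊆ S) (h2 : ∀ v ∈ S, dg G S v ≤ 2)
    (h1 : ∀ v ∈ T, dg G S v ≤ 1) (x : B → ℝ) :
    (√5 - 2) * ∑ i ∈ S, x i ^ 2 + ∑ i ∈ T, x i ^ 2 ≤ Rf G S x := by
  have h3 := En_le G S x
  have h4 : ∑ i ∈ S, (dg G S i : ℝ) * x i ^ 2 + ∑ i ∈ T, x i ^ 2 ≤ 2 * ∑ i ∈ S, x i ^ 2 := by
    have e1 : ∑ i ∈ T, x i ^ 2 = ∑ i ∈ S, if i ∈ T then x i ^ 2 else 0 := by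
      rw [← sum_filter]
      refine sum_congr ?_ fun _ _ => rfl
      ext i; simp only [mem_filter]; exact ⟨fun h => ⟨hT h, h⟩, fun h => h.2⟩
    rw [e1, ← sum_add_distrib, mul_sum]
    refine sum_le_sum fun i hi => ?_
    have hx := sq_nonneg (x i)
    split_ifs with hiT
    · have : (dg G S i : ℝ) ≤ 1 := by exact_mod_cast h1 i hiT
      nlinarith
    · have : (dg G S i : ℝ) ≤ 2 := by exact_mod_cast h2 i hi
      nlinarith
  unfold Rf
  linarith

theorem filter_adj_self (G : SimpleGraph B) (S : Finset B) (a : B) :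
    (S.erase a).filter (G.Adj a) = S.filter (G.Adj a) := by
  ext j
  simp only [mem_filter, mem_erase]
  exact ⟨fun h => ⟨h.1.2, h.2⟩, fun h => ⟨⟨h.2.ne', h.1⟩, h.2⟩⟩

/-- the path lemma -/
theorem path_end (G : SimpleGraph B) (x : B → ℝ) : ∀ (n : ℕ) (S : Finset B), S.card = n → ∀ c ∈ S,
    (∀ v ∈ S, dg G S v ≤ 2) → dg G S c ≤ 1 →
    (1 + √5) / 2 * x c ^ 2 ≤ Rf G S x ∧ (x c ≠ 0 → (1 + √5) / 2 * x c ^ 2 < Rf G S x) := by
  intro n
  induction n with
  | zero => intro S hS c hc; rw [card_eq_zero] at hS; subst hS; exact absurd hc (by simp)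
  | succ n ih =>
    intro S hS c hc h2 h1
    have e := sqrt5_sq
    have g1 := sqrt5_gt
    have g2 := sqrt5_lt
    have hR : Rf G S x = Rf G (S.erase c) x + √5 * x c ^ 2
        - 2 * x c * ∑ j ∈ S.filter (G.Adj c), x j := by
      conv_lhs => rw [← insert_erase hc]
      rw [Rf_insert G (notMem_erase c S), filter_adj_self]
    have h2' : ∀ v ∈ S.erase c, dg G (S.erase c) v ≤ 2 := fun v hv =>
      (dg_mono G (erase_subset _ _) v).trans (h2 v (mem_of_mem_erase hv))
    rcases Nat.lt_or_ge (dg G S c) 1 with h0 | h0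
    · have he : S.filter (G.Adj c) = ∅ := card_eq_zero.1 (by unfold dg at h0; omega)
      have hge := Rf_ge G (T := ∅) (empty_subset _) h2' (by simp) x
      rw [sum_empty, add_zero] at hge
      have hnn : 0 ≤ ∑ i ∈ S.erase c, x i ^ 2 := sum_nonneg fun i _ => sq_nonneg _
      rw [hR, he, sum_empty]
      constructor
      · nlinarith [sq_nonneg (x c)]
      · intro hx
        have : 0 < x c ^ 2 := by positivity
        nlinarith
    · obtain ⟨d, hd⟩ := card_eq_one.1 (show (S.filter (G.Adj c)).card = 1 by unfold dg at h0 h1; omega)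
      have hdm : d ∈ S.filter (G.Adj c) := by rw [hd]; exact mem_singleton_self d
      have hdS := (mem_filter.1 hdm).1
      have hcd := (mem_filter.1 hdm).2
      have hd' : d ∈ S.erase c := mem_erase.2 ⟨hcd.ne', hdS⟩
      have hdd : dg G (S.erase c) d ≤ 1 := by
        have := dg_erase G hc hcd.symm
        have := h2 d hdS
        omega
      obtain ⟨i1, i2⟩ := ih (S.erase c) (by rw [card_erase_of_mem hc, hS]; rfl) d hd' h2' hdd
      rw [hR, hd, sum_singleton]
      have key : (1 + √5) / 2 * x c ^ 2 ≤ (1 + √5) / 2 * x d ^ 2 + √5 * x c ^ 2 - 2 * x c * x d := by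
        have : (1 + √5) / 2 * x d ^ 2 + √5 * x c ^ 2 - 2 * x c * x d - (1 + √5) / 2 * x c ^ 2
            = (√5 - 1) / 2 * (x c - (1 + √5) / 2 * x d) ^ 2 := by
          nlinarith
        have h3 : 0 ≤ (√5 - 1) / 2 * (x c - (1 + √5) / 2 * x d) ^ 2 :=
          mul_nonneg (by linarith) (sq_nonneg _)
        linarith
      constructor
      · linarith
      · intro hx
        by_cases hxd : x d = 0
        · have : 0 < x c ^ 2 := by positivity
          rw [hxd] at i1 ⊢
          nlinarith
        · have := i2 hxd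
          linarith

/-- the three-end inequality -/
def Three (G : SimpleGraph B) (S : Finset B) (x : B → ℝ) (a b c : B) : Prop :=
  (1 + √5) / 2 * x a ^ 2 + (√5 - 1) * (x b ^ 2 + x c ^ 2) ≤ Rf G S x ∧
  (x a ≠ 0 → (1 + √5) / 2 * x a ^ 2 + (√5 - 1) * (x b ^ 2 + x c ^ 2) < Rf G S x)

theorem Three.swap {G : SimpleGraph B} {S : Finset B} {x : B → ℝ} {a b c : B}
    (h : Three G S x a b c) : Three G S x a c b := by
  unfold Three at *
  rw [add_comm (x c ^ 2)]
  exact h

theorem dg_erase' (G : SimpleGraph B) {S : Finset B} {a v : B} (h : ¬ G.Adj v a) :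
    dg G (S.erase a) v = dg G S v := by
  unfold dg
  rw [filter_erase, erase_eq_of_notMem]
  intro h'
  exact h (mem_filter.1 h').2

theorem three_end (G : SimpleGraph B) (x : B → ℝ) : ∀ (n : ℕ) (S : Finset B), S.card = n →
    ∀ a ∈ S, ∀ b ∈ S, ∀ c ∈ S, a ≠ b → a ≠ c → b ≠ c → (∀ v ∈ S, dg G S v ≤ 2) →
    dg G S a ≤ 1 → dg G S b ≤ 1 → dg G S c ≤ 1 →
    Three G S x a b c ∨ Three G S x b a c ∨ Three G S x c a b := by
  intro n
  induction n with
  | zero => intro S hS c hc; rw [card_eq_zero] at hS; subst hS; exact absurd hc (by simp)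
  | succ n ih =>
    intro S hS a ha b hb c hc hab hac hbc h2 ha1 hb1 hc1
    have e := sqrt5_sq
    have g1 := sqrt5_gt
    have g2 := sqrt5_lt
    have hR : Rf G S x = Rf G (S.erase a) x + √5 * x a ^ 2
        - 2 * x a * ∑ j ∈ S.filter (G.Adj a), x j := by
      conv_lhs => rw [← insert_erase ha]
      rw [Rf_insert G (notMem_erase a S), filter_adj_self]
    have hS' : (S.erase a).card = n := by rw [card_erase_of_mem ha, hS]; rfl
    have h2' : ∀ v ∈ S.erase a, dg G (S.erase a) v ≤ 2 := fun v hv =>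
      (dg_mono G (erase_subset _ _) v).trans (h2 v (mem_of_mem_erase hv))
    have hb' : b ∈ S.erase a := mem_erase.2 ⟨hab.symm, hb⟩
    have hc' : c ∈ S.erase a := mem_erase.2 ⟨hac.symm, hc⟩
    have hb1' := (dg_mono G (erase_subset a S) b).trans hb1
    have hc1' := (dg_mono G (erase_subset a S) c).trans hc1
    rcases Nat.lt_or_ge (dg G S a) 1 with h0 | h0
    · -- `a` is isolated
      left
      have he : S.filter (G.Adj a) = ∅ := card_eq_zero.1 (by unfold dg at h0; omega)
      have hge := Rf_ge G (T := {b, c}) (by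
          intro v hv
          rcases mem_insert.1 hv with rfl | hv
          · exact hb'
          · rw [mem_singleton.1 hv]; exact hc') h2' (by
          intro v hv
          rcases mem_insert.1 hv with rfl | hv
          · exact hb1'
          · rw [mem_singleton.1 hv]; exact hc1') x
      rw [sum_pair hbc] at hge
      have hnn : x b ^ 2 + x c ^ 2 ≤ ∑ i ∈ S.erase a, x i ^ 2 := by
        rw [← sum_pair (f := fun i => x i ^ 2) hbc]
        refine sum_le_sum_of_subset_of_nonneg ?_ fun i _ _ => sq_nonneg _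
        intro v hv
        rcases mem_insert.1 hv with rfl | hv
        · exact hb'
        · rw [mem_singleton.1 hv]; exact hc'
      have h5 : (√5 - 1) * (x b ^ 2 + x c ^ 2) ≤ Rf G (S.erase a) x := by nlinarith
      unfold Three
      rw [hR, he, sum_empty]
      constructor
      · nlinarith [sq_nonneg (x a)]
      · intro hx
        have : 0 < x a ^ 2 := by positivity
        nlinarith
    · obtain ⟨d, hd⟩ := card_eq_one.1 (show (S.filter (G.Adj a)).card = 1 by unfold dg at h0 ha1; omega)
      have hdm : d ∈ S.filter (G.Adj a) := by rw [hd]; exact mem_singleton_self d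
      have hdS := (mem_filter.1 hdm).1
      have hcd := (mem_filter.1 hdm).2
      have hd' : d ∈ S.erase a := mem_erase.2 ⟨hcd.ne', hdS⟩
      rw [hd, sum_singleton] at hR
      -- the case that the neighbour of `a` is one of the other ends
      have pair : ∀ b c : B, b ∈ S.erase a → c ∈ S.erase a → b ≠ c → G.Adj a b → dg G S b ≤ 1 →
          dg G S c ≤ 1 → Rf G S x = Rf G (S.erase a) x + √5 * x a ^ 2 - 2 * x a * x b →
          Three G S x c a b := by
        intro b c hb hc hbc hadj hb1 hc1 hR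
        have hb0 : dg G (S.erase a) b = 0 := by
          have := dg_erase G ha hadj.symm
          omega
        have he : (S.erase a).filter (G.Adj b) = ∅ := card_eq_zero.1 hb0
        have hR2 : Rf G (S.erase a) x = Rf G ((S.erase a).erase b) x + √5 * x b ^ 2 := by
          conv_lhs => rw [← insert_erase hb]
          rw [Rf_insert G (notMem_erase b _), filter_adj_self, he, sum_empty]; ring
        have hc'' : c ∈ (S.erase a).erase b := mem_erase.2 ⟨hbc.symm, hc⟩
        obtain ⟨i1, i2⟩ := path_end G x _ ((S.erase a).erase b) rfl c hc''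
          (fun v hv => (dg_mono G ((erase_subset _ _).trans (erase_subset _ _)) v).trans
            (h2 v (mem_of_mem_erase (mem_of_mem_erase hv))))
          ((dg_mono G ((erase_subset _ _).trans (erase_subset _ _)) c).trans hc1)
        have hsq := sq_nonneg (x a - x b)
        unfold Three
        rw [hR, hR2]
        constructor
        · nlinarith
        · intro hx
          have := i2 hx
          nlinarith
      by_cases hdb : d = b
      · subst hdb
        exact Or.inr (Or.inr (pair d c hb' hc' hbc hcd hb1 hc1 hR))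
      by_cases hdc : d = c
      · subst hdc
        exact Or.inr (Or.inl (pair d b hc' hb' (Ne.symm hbc) hcd hc1 hb1 hR))
      · have hd1 : dg G (S.erase a) d ≤ 1 := by
          have := dg_erase G ha hcd.symm
          have := h2 d hdS
          omega
        have hsq := sq_nonneg (x a - x d)
        have step : ∀ b c : B, Three G (S.erase a) x b d c → Three G S x b a c := by
          rintro b c ⟨i1, i2⟩
          have h6 : (√5 - 1) * x a ^ 2 ≤ (√5 - 1) * x d ^ 2 + √5 * x a ^ 2 - 2 * x a * x d := by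
            nlinarith [sq_nonneg (x d)]
          unfold Three
          rw [hR]
          constructor
          · linarith
          · intro hx
            have := i2 hx
            linarith
        rcases ih (S.erase a) hS' d hd' b hb' c hc' hdb hdc hbc h2' hd1 hb1' hc1' with
          ⟨i1, i2⟩ | h3 | h3
        · left
          have key : (1 + √5) / 2 * x a ^ 2 ≤ (1 + √5) / 2 * x d ^ 2 + √5 * x a ^ 2 - 2 * x a * x d := by
            have : (1 + √5) / 2 * x d ^ 2 + √5 * x a ^ 2 - 2 * x a * x d - (1 + √5) / 2 * x a ^ 2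
                = (√5 - 1) / 2 * (x a - (1 + √5) / 2 * x d) ^ 2 := by
              nlinarith
            have h3 : 0 ≤ (√5 - 1) / 2 * (x a - (1 + √5) / 2 * x d) ^ 2 :=
              mul_nonneg (by linarith) (sq_nonneg _)
            linarith
          unfold Three
          rw [hR]
          constructor
          · linarith
          · intro hx
            by_cases hxd : x d = 0
            · have : 0 < x a ^ 2 := by positivity
              rw [hxd] at i1 ⊢
              nlinarith
            · have := i2 hxd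
              linarith
        · exact Or.inr (Or.inl (step b c h3))
        · exact Or.inr (Or.inr (step c b h3))

/-- the spectral radius is less than `√5` -/
theorem Rf_pos (G : SimpleGraph B) (S : Finset B) (x : B → ℝ) (hx : ∃ i ∈ S, x i ≠ 0)
    (h4 : ∀ v ∈ S, dg G S v ≤ 3)
    (h3 : ∀ v ∈ S, ∀ w ∈ S, v ≠ w → 3 ≤ dg G S v → 3 ≤ dg G S w → False) : 0 < Rf G S x := by
  have e := sqrt5_sq
  have g1 := sqrt5_gt
  have g2 := sqrt5_lt
  obtain ⟨i0, hi0, hxi0⟩ := hx
  have hpos : 0 < ∑ i ∈ S, x i ^ 2 := by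
    have : x i0 ^ 2 ≤ ∑ i ∈ S, x i ^ 2 := single_le_sum (fun i _ => sq_nonneg (x i)) hi0
    have : 0 < x i0 ^ 2 := by positivity
    linarith
  by_cases hex : ∃ v ∈ S, 3 ≤ dg G S v
  · obtain ⟨v, hv, hv3⟩ := hex
    have hv3' : (S.filter (G.Adj v)).card = 3 := le_antisymm (h4 v hv) hv3
    obtain ⟨a, b, c, hab, hac, hbc, habc⟩ := card_eq_three.1 hv3'
    have hR : Rf G S x = Rf G (S.erase v) x + √5 * x v ^ 2
        - 2 * x v * ∑ j ∈ S.filter (G.Adj v), x j := by
      conv_lhs => rw [← insert_erase hv]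
      rw [Rf_insert G (notMem_erase v S), filter_adj_self]
    have hsum : ∑ j ∈ S.filter (G.Adj v), x j = x a + x b + x c := by
      rw [habc, sum_insert (by simp [hab, hac]), sum_pair hbc]; ring
    rw [hsum] at hR
    have hnb : ∀ w ∈ ({a, b, c} : Finset B), w ∈ S ∧ G.Adj v w := fun w hw => by
      rw [← habc] at hw; exact mem_filter.1 hw
    have ha := hnb a (by simp)
    have hb := hnb b (by simp)
    have hc := hnb c (by simp)
    have h2S : ∀ w ∈ S, w ≠ v → dg G S w ≤ 2 := by
      intro w hw hwv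
      by_contra hlt
      exact h3 v hv w hw hwv.symm hv3 (by omega)
    have h2 : ∀ w ∈ S.erase v, dg G (S.erase v) w ≤ 2 := fun w hw =>
      (dg_mono G (erase_subset _ _) w).trans (h2S w (mem_of_mem_erase hw) (ne_of_mem_erase hw))
    have hd1 : ∀ w, w ∈ S → G.Adj v w → dg G (S.erase v) w ≤ 1 := by
      intro w hw hvw
      have := dg_erase G hv hvw.symm
      have := h2S w hw hvw.ne'
      omega
    have hge := Rf_ge G (T := ∅) (empty_subset _) h2 (by simp) x
    rw [sum_empty, add_zero] at hge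
    have fin : ∀ a b c : B, Rf G S x = Rf G (S.erase v) x + √5 * x v ^ 2
        - 2 * x v * (x a + x b + x c) → Three G (S.erase v) x a b c → 0 < Rf G S x := by
      rintro a b c hR ⟨i1, i2⟩
      -- `θ x_v² - 2 x_v s + φ x_a² + (θ-1)(x_b² + x_c²)` is a sum of squares
      have key : √5 * x v ^ 2 - 2 * x v * (x a + x b + x c)
          + ((1 + √5) / 2 * x a ^ 2 + (√5 - 1) * (x b ^ 2 + x c ^ 2))
          = (1 + √5) / 2 * (x a - (√5 - 1) / 2 * x v) ^ 2
            + (√5 - 1) * (x b - (1 + √5) / 4 * x v) ^ 2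
            + (√5 - 1) * (x c - (1 + √5) / 4 * x v) ^ 2 := by
        have e3 : √5 ^ 3 = 5 * √5 := by
          calc √5 ^ 3 = (√5 * √5) * √5 := by ring
            _ = 5 * √5 := by rw [e]
        have e2 : √5 ^ 2 = 5 := by rw [sq, e]
        ring_nf
        rw [e3, e2]
        ring
      have n1 : 0 ≤ (1 + √5) / 2 * (x a - (√5 - 1) / 2 * x v) ^ 2 :=
        mul_nonneg (by linarith) (sq_nonneg _)
      have n2 : 0 ≤ (√5 - 1) * (x b - (1 + √5) / 4 * x v) ^ 2 :=
        mul_nonneg (by linarith) (sq_nonneg _)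
      have n3 : 0 ≤ (√5 - 1) * (x c - (1 + √5) / 4 * x v) ^ 2 :=
        mul_nonneg (by linarith) (sq_nonneg _)
      by_cases hxa : x a = 0
      · by_cases hxv : x v = 0
        · rw [hR, hxv]
          have h0 : ∑ i ∈ S.erase v, x i ^ 2 = ∑ i ∈ S, x i ^ 2 := by
            rw [← add_sum_erase S _ hv, hxv]; ring
          rw [h0] at hge
          nlinarith
        · have : 0 < (1 + √5) / 2 * (x a - (√5 - 1) / 2 * x v) ^ 2 := by
            rw [hxa]
            have h1 : 0 - (√5 - 1) / 2 * x v ≠ 0 := by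
              intro h0
              have : (√5 - 1) / 2 * x v = 0 := by linarith
              rcases mul_eq_zero.1 this with h | h
              · linarith
              · exact hxv h
            positivity
          linarith
      · have := i2 hxa
        linarith
    rcases three_end G x _ (S.erase v) rfl a (mem_erase.2 ⟨ha.2.ne', ha.1⟩) b
      (mem_erase.2 ⟨hb.2.ne', hb.1⟩) c (mem_erase.2 ⟨hc.2.ne', hc.1⟩) hab hac hbc h2
      (hd1 a ha.1 ha.2) (hd1 b hb.1 hb.2) (hd1 c hc.1 hc.2) with h | h | h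
    · exact fin a b c hR h
    · exact fin b a c (by rw [hR]; ring) h
    · exact fin c a b (by rw [hR]; ring) h
  · push Not at hex
    have hge := Rf_ge G (T := ∅) (empty_subset _) (fun v hv => Nat.le_of_lt_succ (hex v hv)) (by simp) x
    rw [sum_empty, add_zero] at hge
    have : 0 < (√5 - 2) * ∑ i ∈ S, x i ^ 2 := mul_pos (by linarith) hpos
    linarith

end

end Pool.Agent.CrgTail
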