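import Pool.Agent.CrgTail.Lower
import Pool.Agent.CrgTail.NoHost2

set_option autoImplicit false

/-!
# The colored regularity graphs with tails: upper bound for the edit distance function
-/

namespace Pool.Agent.CrgTail

open Finset Pool.Agent.Crg

open Classical in
/-- 11 white vertices and the black vertices `0, ..., n + 2` with gray graph `Tail` -/
noncomputable def tailCRG (n : ℕ) : CRG (Fin 11 ⊕ Fin (n + 3)) where
  black v := v.isRight
  col u v := match u, v with
    | .inr i, .inr j => if Tail.Adj i.1 j.1 then 1 else 0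
    | _, _ => 1
  symm u v := by
    rcases u with i | i <;> rcases v with j | j
    · rfl
    · rfl
    · rfl
    · show (if Tail.Adj i.1 j.1 then (1 : Fin 3) else 0) = if Tail.Adj j.1 i.1 then 1 else 0
      by_cases h : Tail.Adj i.1 j.1
      · rw [if_pos h, if_pos h.symm]
      · rw [if_neg h, if_neg (fun h' => h h'.symm)]

theorem tail_avoids (n : ℕ) : Avoids H (tailCRG n) := by
  rintro ⟨φ, hφ⟩
  refine not_hosts_tail ⟨fun v => Sum.map id Fin.val (φ v), fun a b hab => ?_⟩
  obtain ⟨h1, h2⟩ := hφ a b hab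
  beta_reduce
  cases hadj : adjB a b
  · have h3 := h2 (fun h => by rw [show adjB a b = true from h] at hadj; exact absurd hadj (by decide))
    cases ha : φ a <;> cases hb : φ b <;> simp only [Ok, Sum.map_inl, Sum.map_inr, id]
    rw [ha, hb] at h3
    rcases h3 with ⟨-, h4⟩ | ⟨h4, -⟩
    · exact absurd h4 (by simp [tailCRG])
    · intro e; exact h4 (by rw [Fin.ext e])
  · have h3 := h1 hadj
    cases ha : φ a <;> cases hb : φ b <;> simp only [Ok, Sum.map_inl, Sum.map_inr, id]
    · rw [ha, hb] at h3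
      rcases h3 with ⟨-, h4⟩ | ⟨h4, -⟩
      · exact absurd h4 (by simp [tailCRG])
      · intro e; exact h4 (by rw [e])
    · rw [ha, hb] at h3
      rcases h3 with ⟨h4, -⟩ | ⟨-, h4⟩
      · exact Or.inl (congrArg Fin.val (Sum.inr_injective h4))
      · right
        by_contra hc
        exact h4 (by simp [tailCRG, hc])

/-- the test vector -/
noncomputable def μ : ℕ → ℝ
  | 0 => (1 + √5) / 4
  | 1 => (1 + √5) / 4
  | (i + 2) => ((√5 - 1) / 2) ^ i

theorem μ_nonneg (i : ℕ) : 0 ≤ μ i := by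
  have := sqrt5_gt
  match i with
  | 0 => unfold μ; linarith
  | 1 => unfold μ; linarith
  | (i + 2) => unfold μ; exact pow_nonneg (by linarith) _

section
open Classical

theorem Rf_tail (n : ℕ) : Rf Tail (range (n + 3)) μ = ((√5 - 1) / 2) ^ (2 * n + 1) := by
  have e := sqrt5_sq
  induction n with
  | zero =>
    have h01 : Tail.Adj 0 1 := Or.inl rfl
    have h12 : Tail.Adj 1 2 := Or.inl rfl
    have h02 : Tail.Adj 0 2 := Or.inr (Or.inr (Or.inl ⟨rfl, rfl⟩))
    unfold Rf En
    simp only [sum_range_succ, range_zero, sum_empty, h01, h12, h02, h01.symm, h12.symm, h02.symm,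
      SimpleGraph.irrefl, if_true, if_false, zero_add, add_zero]
    unfold μ
    norm_num
    nlinarith
  | succ n ih =>
    have hfil : (range (n + 3)).filter (Tail.Adj (n + 3)) = {n + 2} := by
      ext j
      simp only [mem_filter, mem_range, mem_singleton]
      constructor
      · rintro ⟨h1, h2 | h2 | h2 | h2⟩ <;> omega
      · rintro rfl
        exact ⟨by omega, Or.inr (Or.inl rfl)⟩
    rw [Rf_insert' Tail (S := range (n + 3)) (a := n + 3) (by simp)
      (fun i => by simp only [mem_range]; omega), ih, hfil, sum_singleton]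
    have h1 : μ (n + 3) = ((√5 - 1) / 2) ^ (n + 1) := rfl
    have h2 : μ (n + 2) = ((√5 - 1) / 2) ^ n := rfl
    rw [h1, h2]
    set q := (√5 - 1) / 2 with hq
    have hq2 : √5 * q = q ^ 2 + 1 := by rw [hq]; nlinarith
    calc q ^ (2 * n + 1) + √5 * (q ^ (n + 1)) ^ 2 - 2 * q ^ (n + 1) * q ^ n
        = q ^ (2 * n + 1) + (√5 * q) * q ^ (2 * n + 1) - 2 * q ^ (2 * n + 1) := by ring
      _ = q ^ (2 * (n + 1) + 1) := by rw [hq2]; ring

/-- the form of the tail graph at the test vector -/
theorem form_tail (n : ℕ) (p : ℝ) : form (tailCRG n) p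
    (Sum.elim (fun _ => 1 / 12) (fun i => μ i.1 / (12 * ∑ j ∈ range (n + 3), μ j)))
    = (1 / 144) * (11 * p + (p * ((∑ j ∈ range (n + 3), μ j) ^ 2 - En Tail (range (n + 3)) μ)
      + (1 - 2 * p) * ∑ j ∈ range (n + 3), μ j ^ 2) / (∑ j ∈ range (n + 3), μ j) ^ 2) := by
  set M := ∑ j ∈ range (n + 3), μ j with hM
  have hmat : ∀ i j : Fin (n + 3), mat (tailCRG n) p (.inr i) (.inr j)
      = p - (if Tail.Adj i.1 j.1 then p else 0) + (if i = j then 1 - 2 * p else 0) := by
    intro i j
    unfold mat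
    by_cases hij : i = j
    · subst hij
      simp [tailCRG, SimpleGraph.irrefl]
      ring
    · rw [if_neg (fun e => hij (Sum.inr_injective e))]
      by_cases hadj : Tail.Adj i.1 j.1
      · simp [tailCRG, hadj, hij]
      · simp [tailCRG, hadj, hij]
  have hmatw : ∀ i j : Fin 11, mat (tailCRG n) p (.inl i) (.inl j) = if i = j then p else 0 := by
    intro i j
    unfold mat
    by_cases hij : i = j
    · subst hij
      simp [tailCRG]
    · rw [if_neg (fun e => hij (Sum.inl_injective e))]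
      simp [tailCRG, hij]
  have hmat1 : ∀ (i : Fin 11) (j : Fin (n + 3)), mat (tailCRG n) p (.inl i) (.inr j) = 0 := by
    intro i j
    unfold mat
    rw [if_neg (by simp)]
    simp [tailCRG]
  have hmat2 : ∀ (i : Fin (n + 3)) (j : Fin 11), mat (tailCRG n) p (.inr i) (.inl j) = 0 := by
    intro i j
    rw [mat_symm, hmat1]
  unfold form
  simp only [Fintype.sum_sum_type, Sum.elim_inl, Sum.elim_inr, hmat1, hmat2, hmatw, hmat]
  have hw : ∑ i : Fin 11, (∑ j : Fin 11, 1 / 12 * (if i = j then p else 0) * (1 / 12)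
      + ∑ j : Fin (n + 3), 1 / 12 * 0 * (μ j.1 / (12 * M))) = (1 / 144) * (11 * p) := by
    simp
    ring
  rw [hw]
  have hb : ∑ i : Fin (n + 3), (∑ j : Fin 11, μ i.1 / (12 * M) * 0 * (1 / 12)
      + ∑ j : Fin (n + 3), μ i.1 / (12 * M) * (p - (if Tail.Adj i.1 j.1 then p else 0)
        + (if i = j then 1 - 2 * p else 0)) * (μ j.1 / (12 * M)))
      = (1 / (12 * M)) ^ 2 * (p * (M ^ 2 - En Tail (range (n + 3)) μ)
        + (1 - 2 * p) * ∑ j ∈ range (n + 3), μ j ^ 2) := by
    have e1 : ∀ i : Fin (n + 3), (∑ j : Fin 11, μ i.1 / (12 * M) * 0 * (1 / 12)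
      + ∑ j : Fin (n + 3), μ i.1 / (12 * M) * (p - (if Tail.Adj i.1 j.1 then p else 0)
        + (if i = j then 1 - 2 * p else 0)) * (μ j.1 / (12 * M)))
      = (1 / (12 * M)) ^ 2 * (p * μ i.1 * M - p * (∑ j ∈ range (n + 3), if Tail.Adj i.1 j then μ i.1 * μ j else 0)
        + (1 - 2 * p) * μ i.1 ^ 2) := by
      intro i
      have e2 : ∑ j : Fin 11, μ i.1 / (12 * M) * 0 * (1 / 12) = 0 := by simp
      rw [e2, zero_add]
      have e3 : M = ∑ j : Fin (n + 3), μ j.1 := by rw [hM, sum_range]
      have e4 : (∑ j ∈ range (n + 3), if Tail.Adj i.1 j then μ i.1 * μ j else 0)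
          = ∑ j : Fin (n + 3), if Tail.Adj i.1 j.1 then μ i.1 * μ j.1 else 0 := by rw [sum_range]
      have e5 : ∀ j : Fin (n + 3), μ i.1 / (12 * M) * (p - (if Tail.Adj i.1 j.1 then p else 0)
        + (if i = j then 1 - 2 * p else 0)) * (μ j.1 / (12 * M))
        = (1 / (12 * M)) ^ 2 * (p * μ i.1 * μ j.1 - p * (if Tail.Adj i.1 j.1 then μ i.1 * μ j.1 else 0)
          + (if i = j then (1 - 2 * p) * μ i.1 * μ j.1 else 0)) := by
        intro j
        split_ifs <;> ring
      rw [sum_congr rfl fun j _ => e5 j, ← mul_sum, sum_add_distrib, sum_sub_distrib, ← mul_sum,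
        ← mul_sum, ← e3, ← e4, sum_ite_eq, if_pos (mem_univ i)]
      ring
    rw [sum_congr rfl fun i _ => e1 i, ← mul_sum, sum_add_distrib, sum_sub_distrib]
    congr 1
    have e6 : ∑ i : Fin (n + 3), p * μ i.1 * M = p * M ^ 2 := by
      rw [← sum_mul, ← mul_sum]
      have e3 : M = ∑ j : Fin (n + 3), μ j.1 := by rw [hM, sum_range]
      rw [← e3]; ring
    have e7 : ∑ i : Fin (n + 3), p * (∑ j ∈ range (n + 3), if Tail.Adj i.1 j then μ i.1 * μ j else 0)
        = p * En Tail (range (n + 3)) μ := by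
      rw [← mul_sum]
      unfold En
      rw [sum_range (fun i => ∑ j ∈ range (n + 3), if Tail.Adj i j then μ i * μ j else 0)]
    have e8 : ∑ i : Fin (n + 3), (1 - 2 * p) * μ i.1 ^ 2
        = (1 - 2 * p) * ∑ j ∈ range (n + 3), μ j ^ 2 := by
      rw [← mul_sum, sum_range]
    rw [e6, e7, e8]
    ring
  rw [hb]
  by_cases hM0 : M = 0
  · rw [hM0]; simp
  · field_simp
    ring

/-- for `p > √5 - 2` the edit distance function is less than `p / 12` -/
theorem ed_lt {p : ℝ} (h1 : p0 < p) (h2 : p ≤ 1 / 2) : ed H p < p / 12 := by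
  have g1 := sqrt5_gt
  have g2 := sqrt5_lt
  have e5 := sqrt5_sq
  have hp : 0 < p := p0_pos.trans h1
  -- choose `n`
  have hc : 0 < p * (√5 + 2) - 1 := by
    have : p0 * (√5 + 2) = 1 := by unfold p0; nlinarith
    nlinarith
  set q := (√5 - 1) / 2 with hq
  have hq0 : 0 < q := by rw [hq]; linarith
  have hq1 : q < 1 := by rw [hq]; linarith
  obtain ⟨n, hn⟩ := exists_pow_lt_of_lt_one (show 0 < (p * (√5 + 2) - 1) / p by positivity) hq1
  have hn' : p * q ^ (2 * n + 1) < p * (√5 + 2) - 1 := by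
    have : q ^ (2 * n + 1) ≤ q ^ n := pow_le_pow_of_le_one hq0.le hq1.le (by omega)
    rw [lt_div_iff₀ hp] at hn
    nlinarith
  set M := ∑ j ∈ range (n + 3), μ j with hM
  have h2M : (1 : ℝ) ≤ M := by
    have : μ 2 ≤ M := single_le_sum (fun i _ => μ_nonneg i) (mem_range.2 (by omega))
    have h : μ 2 = 1 := by unfold μ; simp
    linarith
  have hsq : (1 : ℝ) ≤ ∑ j ∈ range (n + 3), μ j ^ 2 := by
    have : μ 2 ^ 2 ≤ ∑ j ∈ range (n + 3), μ j ^ 2 :=
      single_le_sum (f := fun j => μ j ^ 2) (fun i _ => sq_nonneg _) (mem_range.2 (by omega))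
    have h : μ 2 = 1 := by unfold μ; simp
    rw [h] at this
    linarith
  have hR := Rf_tail n
  unfold Rf at hR
  rw [← hq] at hR
  set x : Fin 11 ⊕ Fin (n + 3) → ℝ := Sum.elim (fun _ => 1 / 12) (fun i => μ i.1 / (12 * M)) with hx
  have hsimp : Simp x := by
    constructor
    · rintro (i | i)
      · simp [hx]
      · simp only [hx, Sum.elim_inr]
        exact div_nonneg (μ_nonneg _) (by linarith)
    · rw [Fintype.sum_sum_type]
      simp only [hx, Sum.elim_inl, Sum.elim_inr]
      have e3 : M = ∑ j : Fin (n + 3), μ j.1 := by rw [hM, sum_range]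
      have hM0 : M ≠ 0 := by linarith
      have s1 : ∑ _i : Fin 11, (1 / 12 : ℝ) = 11 / 12 := by simp; norm_num
      have s2 : ∑ i : Fin (n + 3), μ i.1 / (12 * M) = 1 / 12 := by
        rw [← sum_div, ← e3]
        field_simp
      rw [s1, s2]
      norm_num
  have hform := form_tail n p
  rw [← hM, ← hx] at hform
  have hlt : form (tailCRG n) p x < p / 12 := by
    rw [hform]
    have hM2 : 0 < M ^ 2 := by positivity
    have key : (p * (M ^ 2 - En Tail (range (n + 3)) μ)
      + (1 - 2 * p) * ∑ j ∈ range (n + 3), μ j ^ 2) < p * M ^ 2 := by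
      nlinarith
    have : (p * (M ^ 2 - En Tail (range (n + 3)) μ)
      + (1 - 2 * p) * ∑ j ∈ range (n + 3), μ j ^ 2) / M ^ 2 < p := by
      rw [div_lt_iff₀ hM2]; exact key
    linarith
  -- transport to `Fin k`
  set e : Fin (11 + (n + 3)) ≃ Fin 11 ⊕ Fin (n + 3) := finSumFinEquiv.symm with he
  have hav : Avoids H ((tailCRG n).comap e) := avoids_comap e.injective (tail_avoids n)
  calc ed H p ≤ gfun ((tailCRG n).comap e) p := ed_le H hp.le (by linarith) _ (by omega) hav
    _ ≤ form ((tailCRG n).comap e) p (x ∘ e) := gfun_le _ p ⟨fun i => hsimp.1 _, by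
        have := e.sum_comp x
        simp only [Function.comp]
        rw [this]; exact hsimp.2⟩
    _ = form (tailCRG n) p x := form_comap_equiv _ e p x
    _ < p / 12 := hlt

end

end Pool.Agent.CrgTail
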